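import Mathlib

/-!
# Reciprocity for the triple symbol of order `r`, abstract part (helper32)

`O` is a domain with an action of a commutative group `G`, `r` a natural number; `σ, τ ∈ G`.
`nm g y = ∏_{i<r} g^i y`, `th g y = ∏_{i<r} (g^i y)^i`,
`cc σ τ a b x = ∑_{i<r} (∏_{k<i} σ^k a) (∏_{i<k<r} τ^k b) (στ)^i x`.
-/

set_option autoImplicit false

namespace Pool.Agent.Rcp

open Finset

variable {O : Type*} [CommRing O] {G : Type*} [CommGroup G] [MulSemiringAction G O]

/-- product over the first `r` powers -/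
def nm (r : ℕ) (g : G) (y : O) : O := ∏ i ∈ range r, g ^ i • y

/-- weighted product -/
def th (r : ℕ) (g : G) (y : O) : O := ∏ i ∈ range r, (g ^ i • y) ^ i

/-- the Hilbert 90 element -/
def cc (r : ℕ) (σ τ : G) (a b x : O) : O :=
  ∑ i ∈ range r, (∏ k ∈ range i, σ ^ k • a) * (∏ k ∈ Ico (i + 1) r, τ ^ k • b) * ((σ * τ) ^ i • x)

theorem prod_shift (r : ℕ) (g : G) (y : O) (hy : g ^ r • y = y) :
    ∏ i ∈ range r, g ^ (i + 1) • y = ∏ i ∈ range r, g ^ i • y := by
  have h1 := prod_range_succ (fun i => g ^ i • y) r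
  have h2 := prod_range_succ' (fun i => g ^ i • y) r
  rw [h1] at h2
  simp only [pow_zero, one_smul, hy] at h2
  rcases Nat.eq_zero_or_pos r with rfl | hr
  · simp
  -- avoid cancellation: rotate
  obtain ⟨s, rfl⟩ : ∃ s, r = s + 1 := ⟨r - 1, by omega⟩
  rw [prod_range_succ, prod_range_succ' (fun i => g ^ i • y) s, hy]
  simp

theorem smul_nm (r : ℕ) (g : G) (y : O) (hy : g ^ r • y = y) : g • nm r g y = nm r g y := by
  unfold nm
  rw [smul_prod']
  rw [← prod_shift r g y hy]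
  refine prod_congr rfl fun i _ => ?_
  rw [smul_smul, pow_succ']

theorem nm_mul (r : ℕ) (g : G) (y z : O) : nm r g (y * z) = nm r g y * nm r g z := by
  unfold nm
  rw [← prod_mul_distrib]
  simp [smul_mul']

theorem nm_smul_comm (r : ℕ) (g h : G) (y : O) : nm r g (h • y) = h • nm r g y := by
  unfold nm
  rw [smul_prod']
  refine prod_congr rfl fun i _ => ?_
  rw [smul_smul, smul_smul, mul_comm]

theorem nm_fixed (r : ℕ) (g : G) (y : O) (hy : g • y = y) : nm r g y = y ^ r := by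
  unfold nm
  have : ∀ i, g ^ i • y = y := by
    intro i
    induction i with
    | zero => simp
    | succ i ih => rw [pow_succ, mul_smul, hy, ih]
  simp [this]

theorem pow_smul_fixed (g : G) (y : O) (hy : g • y = y) (i : ℕ) : g ^ i • y = y := by
  induction i with
  | zero => simp
  | succ i ih => rw [pow_succ, mul_smul, hy, ih]

/-- `σ(θ_a) N_σ(a) = θ_a a^r` -/
theorem smul_th (r : ℕ) (g : G) (y : O) (hy : g ^ r • y = y) :
    (g • th r g y) * nm r g y = th r g y * y ^ r := by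
  unfold th nm
  rw [← prod_shift r g y hy, smul_prod', ← prod_mul_distrib]
  have h1 := prod_range_succ (fun i => (g ^ i • y) ^ i) r
  have h2 := prod_range_succ' (fun i => (g ^ i • y) ^ i) r
  rw [h1] at h2
  simp only [pow_zero, mul_one, hy] at h2
  rw [h2]
  refine prod_congr rfl fun i _ => ?_
  rw [smul_pow', smul_smul, ← pow_succ', ← pow_succ]

/-- the basic equation `c b = a (στ)(c)` -/
theorem cc_eq (r : ℕ) (σ τ : G) (a b x : O) (ha : τ • a = a) (hb : σ • b = b)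
    (hbr : τ ^ r • b = b) (hx : (σ * τ) ^ r • x = x)
    (hN : nm r σ a = nm r τ b) :
    cc r σ τ a b x * b = a * ((σ * τ) • cc r σ τ a b x) := by
  classical
  rcases Nat.eq_zero_or_pos r with rfl | hr
  · simp [cc]
  set T : ℕ → O := fun i =>
    (∏ k ∈ range i, σ ^ k • a) * (∏ k ∈ Ico (i + 1) r, τ ^ k • b) * ((σ * τ) ^ i • x) with hT
  have hcc : cc r σ τ a b x = ∑ i ∈ range r, T i := rfl
  rw [hcc, smul_sum, sum_mul, mul_sum]
  obtain ⟨s, rfl⟩ : ∃ s, r = s + 1 := ⟨r - 1, by omega⟩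
  rw [sum_range_succ' (fun i => T i * b), sum_range_succ (fun i => a * ((σ * τ) • T i))]
  have hstep : ∀ i, a * ((σ * τ) • ((∏ k ∈ range i, σ ^ k • a) *
      (∏ k ∈ Ico (i + 1) (s + 1), τ ^ k • b) * ((σ * τ) ^ i • x))) =
      (∏ k ∈ range (i + 1), σ ^ k • a) * (∏ k ∈ Ico (i + 2) (s + 2), τ ^ k • b) *
        ((σ * τ) ^ (i + 1) • x) := by
    intro i
    rw [smul_mul', smul_mul', smul_prod', smul_prod', smul_smul, ← pow_succ']
    rw [prod_range_succ' (fun k => σ ^ k • a)]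
    have e1 : ∏ k ∈ range i, (σ * τ) • σ ^ k • a = ∏ k ∈ range i, σ ^ (k + 1) • a := by
      refine prod_congr rfl fun k _ => ?_
      rw [smul_smul, mul_assoc, mul_comm τ, ← mul_assoc, ← pow_succ', mul_smul, ha]
    have e2 : ∏ k ∈ Ico (i + 1) (s + 1), (σ * τ) • τ ^ k • b =
        ∏ k ∈ Ico (i + 2) (s + 2), τ ^ k • b := by
      rw [show Ico (i + 2) (s + 2) = Ico (i + 1 + 1) (s + 1 + 1) from rfl, ← prod_Ico_add' (fun k => τ ^ k • b)]
      refine prod_congr rfl fun k _ => ?_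
      rw [smul_smul, mul_assoc, ← pow_succ', mul_comm, mul_smul, hb]
    rw [e1, e2]
    simp only [pow_zero, one_smul]
    ring
  have hmid : ∀ i ∈ range s, T (i + 1) * b = a * ((σ * τ) • T i) := by
    intro i hi
    rw [mem_range] at hi
    rw [hT]
    simp only
    rw [hstep i]
    have e4 : ∏ k ∈ Ico (i + 2) (s + 2), τ ^ k • b =
        (∏ k ∈ Ico (i + 2) (s + 1), τ ^ k • b) * b := by
      rw [prod_Ico_succ_top (by omega : i + 2 ≤ s + 1), hbr]
    rw [e4]
    ring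
  rw [sum_congr rfl hmid]
  congr 1
  rw [hT]
  simp only
  rw [hstep s]
  simp only [range_zero, prod_empty, zero_add, pow_zero, one_smul, one_mul, Ico_self, mul_one]
  rw [hx]
  have e3 : (∏ k ∈ range (s + 1), σ ^ k • a) = (∏ k ∈ Ico 1 (s + 1), τ ^ k • b) * b := by
    have : (∏ k ∈ range (s + 1), σ ^ k • a) = ∏ k ∈ range (s + 1), τ ^ k • b := hN
    rw [this, range_eq_Ico, prod_eq_prod_Ico_succ_bot (by omega)]
    simp [mul_comm]
  rw [e3]
  ring

theorem cc_fixed (r : ℕ) (σ τ g : G) (a b x : O) (ha : g • a = a) (hb : g • b = b)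
    (hx : g • x = x) : g • cc r σ τ a b x = cc r σ τ a b x := by
  unfold cc
  rw [smul_sum]
  refine sum_congr rfl fun i _ => ?_
  rw [smul_mul', smul_mul', smul_prod', smul_prod', smul_smul, mul_comm g, mul_smul, hx]
  congr 1
  congr 1
  · refine prod_congr rfl fun k _ => ?_
    rw [smul_smul, mul_comm g, mul_smul, ha]
  · refine prod_congr rfl fun k _ => ?_
    rw [smul_smul, mul_comm g, mul_smul, hb]

/-- iterating `c b = a (στ)(c)` -/
theorem chain (σ τ : G) (a b c : O) (ha : τ • a = a) (hb : σ • b = b)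
    (hc : c * b = a * ((σ * τ) • c)) (k : ℕ) :
    (σ ^ k • c) * ∏ j ∈ range k, σ ^ j • a =
      (τ⁻¹ ^ k • c) * ∏ j ∈ range k, τ⁻¹ ^ (j + 1) • b := by
  have hσb : ∀ m : ℕ, σ ^ m • b = b := pow_smul_fixed σ b hb
  have ha' : τ⁻¹ • a = a := by
    conv_lhs => rw [← ha]
    rw [smul_smul]; simp
  have hτa : ∀ m : ℕ, τ⁻¹ ^ m • a = a := pow_smul_fixed τ⁻¹ a ha'
  -- one step
  have hstep : ∀ m : ℕ, (σ ^ (m + 1) • c) * (σ ^ m • a) =
      (σ ^ m • τ⁻¹ • c) * (τ⁻¹ • b) := by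
    intro m
    have h := congrArg (fun y => (σ ^ m * τ⁻¹) • y) hc
    simp only [smul_mul', smul_smul] at h
    have e1 : (σ ^ m * τ⁻¹) • a = σ ^ m • a := by rw [mul_smul, ha']
    have e2 : (σ ^ m * τ⁻¹) • b = τ⁻¹ • b := by
      rw [mul_comm, mul_smul, hσb]
    have e3 : (σ ^ m * τ⁻¹ * (σ * τ)) • c = σ ^ (m + 1) • c := by
      congr 1
      rw [mul_comm σ τ, mul_assoc, inv_mul_cancel_left, pow_succ]
    rw [e1, e2, e3] at h
    rw [smul_smul]
    rw [h]
    ring
  induction k with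
  | zero => simp
  | succ k ih =>
    rw [prod_range_succ, prod_range_succ']
    have h1 : (σ ^ (k + 1) • c) * ((∏ j ∈ range k, σ ^ j • a) * σ ^ k • a) =
        ((σ ^ (k + 1) • c) * (σ ^ k • a)) * ∏ j ∈ range k, σ ^ j • a := by ring
    rw [h1, hstep k]
    have h2 := congrArg (fun y => τ⁻¹ • y) ih
    simp only [smul_mul', smul_prod', smul_smul] at h2
    have e1 : ∀ j, (τ⁻¹ * σ ^ j) • a = σ ^ j • a := by
      intro j
      rw [mul_comm, mul_smul, ha']
    simp only [e1] at h2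
    have e2 : (σ ^ k • τ⁻¹ • c) = (τ⁻¹ * σ ^ k) • c := by rw [smul_smul, mul_comm]
    have e3 : (τ⁻¹ * τ⁻¹ ^ k) • c = τ⁻¹ ^ (k + 1) • c := by rw [← pow_succ']
    have e4 : ∀ j, (τ⁻¹ * τ⁻¹ ^ (j + 1)) • b = τ⁻¹ ^ (j + 1 + 1) • b := by
      intro j
      rw [← pow_succ']
    simp only [e3, e4] at h2
    rw [e2]
    calc (τ⁻¹ * σ ^ k) • c * τ⁻¹ • b * ∏ j ∈ range k, σ ^ j • a
        = ((τ⁻¹ * σ ^ k) • c * ∏ j ∈ range k, σ ^ j • a) * τ⁻¹ • b := by ring
      _ = _ := by
        rw [h2]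
        simp only [zero_add, pow_one]
        ring

theorem prod_tri {M : Type*} [CommMonoid M] (f : ℕ → M) (r : ℕ) :
    ∏ k ∈ range r, ∏ j ∈ range k, f j = ∏ j ∈ range r, f j ^ (r - 1 - j) := by
  induction r with
  | zero => simp
  | succ r ih =>
    rw [prod_range_succ, ih, prod_range_succ]
    simp only [Nat.add_sub_cancel, Nat.sub_self, pow_zero, mul_one]
    rw [← prod_mul_distrib]
    refine prod_congr rfl fun j hj => ?_
    rw [mem_range] at hj
    rw [← pow_succ]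
    congr 1
    omega

/-- `θ_b N_τ(c) = D_a N_σ(c)` multiplied by `θ_a`:
`θ_b (θ_a N_τ(c)) = M^(r-1) N_σ(c)` -/
theorem th_mul (r : ℕ) (σ τ : G) (a b c : O) (ha : τ • a = a) (hb : σ • b = b)
    (hbr : τ ^ r • b = b) (hcr : τ ^ r • c = c)
    (hc : c * b = a * ((σ * τ) • c)) :
    th r τ b * (th r σ a * nm r τ c) = nm r σ a ^ (r - 1) * nm r σ c := by
  rcases Nat.eq_zero_or_pos r with rfl | hr
  · simp [th, nm]
  have h := prod_congr (rfl : range r = range r) (fun k (_ : k ∈ range r) => chain σ τ a b c ha hb hc k)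
  rw [prod_mul_distrib, prod_mul_distrib] at h
  rw [prod_tri, prod_tri (fun j => τ⁻¹ ^ (j + 1) • b)] at h
  -- identify the four products
  have e1 : ∏ k ∈ range r, σ ^ k • c = nm r σ c := rfl
  have hinv : ∀ (y : O), τ ^ r • y = y → ∀ m, m ≤ r → τ⁻¹ ^ m • y = τ ^ (r - m) • y := by
    intro y hy m hm
    conv_lhs => rw [← hy]
    rw [smul_smul]
    congr 1
    rw [inv_pow, inv_mul_eq_iff_eq_mul, ← pow_add]
    congr 1
    omega
  have e2 : ∏ k ∈ range r, τ⁻¹ ^ k • c = nm r τ c := by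
    unfold nm
    rw [← prod_shift r τ c hcr, ← prod_range_reflect]
    refine prod_congr rfl fun k hk => ?_
    rw [mem_range] at hk
    rw [hinv c hcr (r - 1 - k) (by omega)]
    congr 2
    omega
  have e3 : ∏ j ∈ range r, (τ⁻¹ ^ (j + 1) • b) ^ (r - 1 - j) = th r τ b := by
    unfold th
    rw [← prod_range_reflect (fun i => (τ ^ i • b) ^ i)]
    refine prod_congr rfl fun k hk => ?_
    rw [mem_range] at hk
    rw [hinv b hbr (k + 1) (by omega)]
    congr 3
    omega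
  have e4 : (∏ j ∈ range r, (σ ^ j • a) ^ (r - 1 - j)) * th r σ a = nm r σ a ^ (r - 1) := by
    unfold th nm
    rw [← prod_mul_distrib, ← prod_pow]
    refine prod_congr rfl fun k hk => ?_
    rw [mem_range] at hk
    rw [← pow_add]
    congr 1
    omega
  rw [e1, e2, e3] at h
  calc th r τ b * (th r σ a * nm r τ c) = (nm r τ c * th r τ b) * th r σ a := by ring
    _ = _ := by rw [← h, ← e4]; ring

/-- `R = θ_a N_τ(c)` is fixed by `σ` -/
theorem R_sigma [IsDomain O] (r : ℕ) (σ τ : G) (a b c : O) (ha : τ • a = a)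
    (har : σ ^ r • a = a) (hcr : τ ^ r • c = c)
    (hc : c * b = a * ((σ * τ) • c)) (hN : nm r σ a = nm r τ b) (ha0 : a ≠ 0)
    (hM : nm r σ a ≠ 0) :
    σ • (th r σ a * nm r τ c) = th r σ a * nm r τ c := by
  have h1 : nm r τ c * nm r τ b = a ^ r * σ • nm r τ c := by
    have h := congrArg (nm r τ) hc
    rw [nm_mul, nm_mul, nm_fixed r τ a ha, nm_smul_comm, mul_smul, smul_nm r τ c hcr] at h
    exact h
  have h2 := smul_th r σ a har
  rw [← hN] at h1
  have h3 : nm r σ a * a ^ r ≠ 0 := mul_ne_zero hM (pow_ne_zero _ ha0)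
  apply mul_right_cancel₀ h3
  rw [smul_mul']
  calc σ • th r σ a * σ • nm r τ c * (nm r σ a * a ^ r)
      = (σ • th r σ a * nm r σ a) * (a ^ r * σ • nm r τ c) := by ring
    _ = (th r σ a * a ^ r) * (nm r τ c * nm r σ a) := by rw [h2, h1]
    _ = _ := by ring

end Pool.Agent.Rcp
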