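import Pool.Agent.Rcp.Loc
import Pool.Agent.Rnr.Defs

/-!
# Characters
-/

set_option autoImplicit false

namespace Pool.Agent.Rcp

open Finset Pool.Agent.Rnr

variable {r : ℕ} (c : Chars r)

theorem X_unit (l : ℕ) (u : (ZMod l)ˣ) : X c l (u : ZMod l) = Multiplicative.toAdd (c l u) := by
  unfold X
  rw [dif_pos u.isUnit]
  congr 2
  ext
  simp

theorem X_one (l : ℕ) : X c l 1 = 0 := by
  have := X_unit c l 1
  rw [Units.val_one, map_one, toAdd_one] at this
  exact this

theorem X_mul (l : ℕ) (a b : ZMod l) (ha : IsUnit a) (hb : IsUnit b) :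
    X c l (a * b) = X c l a + X c l b := by
  obtain ⟨u, rfl⟩ := ha
  obtain ⟨w, rfl⟩ := hb
  rw [← Units.val_mul, X_unit, X_unit, X_unit, map_mul, toAdd_mul]

theorem X_pow (l : ℕ) (a : ZMod l) (ha : IsUnit a) (n : ℕ) : X c l (a ^ n) = n * X c l a := by
  induction n with
  | zero => simp [X_one]
  | succ n ih =>
    rw [pow_succ, X_mul c l _ _ (ha.pow n) ha, ih]
    push_cast
    ring

theorem X_prod (l : ℕ) (s : Finset ℕ) (g : ℕ → ZMod l) (h : ∀ i ∈ s, IsUnit (g i)) :
    X c l (∏ i ∈ s, g i) = ∑ i ∈ s, X c l (g i) := by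
  classical
  induction s using Finset.induction_on with
  | empty => simp [X_one]
  | insert a s ha ih =>
    rw [prod_insert ha, sum_insert ha, X_mul c l _ _ (h a (mem_insert_self _ _)), ih]
    · intro i hi
      exact h i (mem_insert_of_mem hi)
    · have h' : ∀ i ∈ s, IsUnit (g i) := fun i hi => h i (mem_insert_of_mem hi)
      clear ih h ha
      induction s using Finset.induction_on with
      | empty => simp
      | insert b s hb ih2 =>
        rw [prod_insert hb]
        exact (h' b (mem_insert_self _ _)).mul (ih2 fun i hi => h' i (mem_insert_of_mem hi))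

theorem X_neg_one (hr : r.Prime) (hr2 : r ≠ 2) (l : ℕ) : X c l (-1) = 0 := by
  have : Fact r.Prime := ⟨hr⟩
  have h1 : IsUnit (-1 : ZMod l) := isUnit_one.neg
  have h2 := X_mul c l (-1) (-1) h1 h1
  rw [neg_mul_neg, one_mul, X_one] at h2
  have h3 : (2 : ZMod r) * X c l (-1) = 0 := by rw [two_mul, ← h2]
  rcases mul_eq_zero.mp h3 with h4 | h4
  · exfalso
    have h5 : ((2 : ℕ) : ZMod r) = 0 := by exact_mod_cast h4
    rw [ZMod.natCast_eq_zero_iff] at h5
    have := (Nat.prime_dvd_prime_iff_eq hr Nat.prime_two).mp h5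
    exact hr2 this
  · exact h4

/-- the sign does not matter -/
theorem X_natAbs (hr : r.Prime) (hr2 : r ≠ 2) (l : ℕ) (R : ℤ) (hR : IsUnit (R : ZMod l)) :
    X c l (R : ZMod l) = X c l ((R.natAbs : ℕ) : ZMod l) := by
  rcases Int.natAbs_eq R with h | h
  · conv_lhs => rw [h]
    rw [Int.cast_natCast]
  · have h1 : (R : ZMod l) = (-1) * ((R.natAbs : ℕ) : ZMod l) := by
      conv_lhs => rw [h]
      rw [Int.cast_neg, Int.cast_natCast, neg_one_mul]
    have h2 : IsUnit ((R.natAbs : ℕ) : ZMod l) := by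
      rw [h1] at hR
      exact (IsUnit.mul_iff.mp hR).2
    rw [h1, X_mul c l _ _ isUnit_one.neg h2, X_neg_one c hr hr2, zero_add]

theorem psi_nat (S : Finset ℕ) (f : ℕ → ZMod r) (n : ℕ) :
    psi c S f (n : ℤ) = ∑ l ∈ S, f l * X c l (n : ZMod l) := by
  unfold psi
  simp

/-- the Dirichlet character `χ_p - ψ` at `n` -/
theorem dir_zero (S : Finset ℕ) (f : ℕ → ZMod r) (p : ℕ) (n : ℕ) (hn : n ≠ 0)
    (hcop : ∀ v, v.Prime → v ∣ n → IsUnit (v : ZMod p) ∧ ∀ l ∈ S, IsUnit (v : ZMod l))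
    (h : ∀ v, v.Prime → v ∣ n → X c p (v : ZMod p) ≠ psi c S f (v : ℤ) → r ∣ n.factorization v) :
    X c p (n : ZMod p) = psi c S f (n : ℤ) := by
  classical
  have e1 : ∀ l : ℕ, (∀ v, v.Prime → v ∣ n → IsUnit (v : ZMod l)) →
      X c l (n : ZMod l) = ∑ v ∈ n.primeFactors, (n.factorization v : ZMod r) * X c l (v : ZMod l) := by
    intro l hl
    have h1 : (n : ZMod l) = ∏ v ∈ n.primeFactors, (v : ZMod l) ^ n.factorization v := by
      conv_lhs => rw [← Nat.prod_factorization_pow_eq_self hn]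
      rw [Finsupp.prod, Nat.support_factorization]
      push_cast
      rfl
    rw [h1, X_prod]
    · refine sum_congr rfl fun v hv => ?_
      rw [X_pow]
      exact hl v (Nat.prime_of_mem_primeFactors hv) (Nat.dvd_of_mem_primeFactors hv)
    · intro v hv
      exact (hl v (Nat.prime_of_mem_primeFactors hv) (Nat.dvd_of_mem_primeFactors hv)).pow _
  rw [psi_nat, e1 p fun v hv hd => (hcop v hv hd).1]
  have e2 : ∑ l ∈ S, f l * X c l (n : ZMod l) =
      ∑ v ∈ n.primeFactors, (n.factorization v : ZMod r) * psi c S f (v : ℤ) := by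
    have : ∀ l ∈ S, f l * X c l (n : ZMod l) =
        ∑ v ∈ n.primeFactors, (n.factorization v : ZMod r) * (f l * X c l (v : ZMod l)) := by
      intro l hl
      rw [e1 l fun v hv hd => (hcop v hv hd).2 l hl, mul_sum]
      refine sum_congr rfl fun v _ => ?_
      ring
    rw [sum_congr rfl this, sum_comm]
    refine sum_congr rfl fun v _ => ?_
    rw [psi_nat, mul_sum]
  rw [e2]
  refine sum_congr rfl fun v hv => ?_
  by_cases hx : X c p (v : ZMod p) = psi c S f (v : ℤ)
  · rw [hx]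
  · have := h v (Nat.prime_of_mem_primeFactors hv) (Nat.dvd_of_mem_primeFactors hv) hx
    have h0 : (n.factorization v : ZMod r) = 0 := (ZMod.natCast_eq_zero_iff _ _).mpr this
    rw [h0, zero_mul, zero_mul]

/-- the character `∑ f l χ_l` on `(ℤ/N)ˣ` -/
noncomputable def chi (N : ℕ) (S : Finset ℕ) (f : ℕ → ZMod r) :
    (ZMod N)ˣ →* Multiplicative (ZMod r) :=
  ∏ l ∈ S, (if h : l ∣ N then ((c l).comp (ZMod.unitsMap h)) ^ (f l).val else 1)

theorem X_unitsMap (N l : ℕ) [NeZero N] (h : l ∣ N) (g : (ZMod N)ˣ) :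
    X c l ((g.val.val : ℕ) : ZMod l) = Multiplicative.toAdd (c l (ZMod.unitsMap h g)) := by
  rw [← X_unit]
  congr 1
  rw [ZMod.unitsMap_def, Units.coe_map, MonoidHom.coe_coe, ZMod.castHom_apply, ZMod.natCast_val]

theorem toAdd_chi [NeZero r] (N : ℕ) [NeZero N] (S : Finset ℕ) (f : ℕ → ZMod r) (hS : ∀ l ∈ S, l ∣ N)
    (g : (ZMod N)ˣ) : Multiplicative.toAdd (chi c N S f g) = psi c S f ((g.val.val : ℕ) : ℤ) := by
  rw [psi_nat, chi, MonoidHom.finsetProd_apply, toAdd_prod]
  refine sum_congr rfl fun l hl => ?_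
  rw [dif_pos (hS l hl), MonoidHom.pow_apply, toAdd_pow, X_unitsMap c N l (hS l hl), nsmul_eq_mul,
    ZMod.natCast_val, ZMod.cast_id', id_eq]
  rfl

end Pool.Agent.Rcp
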