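import Pool.Agent.Rcp.Rec

/-!
# Reciprocity: client form
-/

set_option autoImplicit false

namespace Pool.Agent.Rcp

open Finset Pool.Agent.Rnr NumberField IsCyclotomicExtension IsCyclotomicExtension.Rat

attribute [local instance] act

/-- a prime ideal over the kernel of `φ` -/
theorem ideal_ext {F E : Type*} [Field F] [NumberField F] [Field E] [NumberField E]
    (m : 𝓞 F →+* 𝓞 E) (hm : Function.Injective m) (q : ℕ) [hq : Fact q.Prime]
    (φ : 𝓞 F →+* ZMod q) :
    ∃ I : Ideal (𝓞 E), I.IsMaximal ∧ (q : 𝓞 E) ∈ I ∧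
      ∀ x : 𝓞 F, m x - (((φ x).val : ℤ) : 𝓞 E) ∈ I := by
  let _ : Algebra (𝓞 F) (𝓞 E) := m.toAlgebra
  have htow : IsScalarTower ℤ (𝓞 F) (𝓞 E) := IsScalarTower.of_algebraMap_eq' (RingHom.ext_int _ _)
  have hint : Algebra.IsIntegral (𝓞 F) (𝓞 E) := ⟨fun y => by
    have h1 : IsIntegral ℤ y := Algebra.IsIntegral.isIntegral y
    exact h1.tower_top⟩
  have hsurj : Function.Surjective φ := ZMod.ringHom_surjective φ
  have hmax : (RingHom.ker φ).IsMaximal := RingHom.ker_isMaximal_of_surjective φ hsurj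
  obtain ⟨I, hI, hcomap⟩ := Ideal.exists_ideal_over_maximal_of_isIntegral (S := 𝓞 E) (RingHom.ker φ)
    (by
      have : RingHom.ker (algebraMap (𝓞 F) (𝓞 E)) = ⊥ := (RingHom.injective_iff_ker_eq_bot _).mp hm
      rw [this]
      exact bot_le)
  have key : ∀ x : 𝓞 F, φ x = 0 → m x ∈ I := by
    intro x hx
    have : x ∈ I.comap (algebraMap (𝓞 F) (𝓞 E)) := by rw [hcomap]; exact hx
    exact this
  refine ⟨I, hI, ?_, ?_⟩
  · have := key (q : 𝓞 F) (by rw [map_natCast, ZMod.natCast_self])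
    rwa [map_natCast] at this
  · intro x
    have := key (x - (((φ x).val : ℤ) : 𝓞 F)) (by
      rw [map_sub, map_intCast, Int.cast_natCast, ZMod.natCast_zmod_val, sub_self])
    rwa [map_sub, map_intCast] at this

/-- embedding of cyclotomic fields with the Galois action -/
theorem cyc_emb (m N : ℕ) [NeZero m] [NeZero N] (hm : m ∣ N) :
    ∃ κ : CyclotomicField m ℚ →ₐ[ℚ] CyclotomicField N ℚ,
      ∀ (g : CyclotomicField N ℚ ≃ₐ[ℚ] CyclotomicField N ℚ) (a : ℕ),
        (∀ z : CyclotomicField N ℚ, z ^ N = 1 → g z = z ^ a) →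
        ∃ g' : CyclotomicField m ℚ ≃ₐ[ℚ] CyclotomicField m ℚ,
          (∀ y, g (κ y) = κ (g' y)) ∧
          ∀ z : CyclotomicField m ℚ, z ^ m = 1 → g' z = z ^ a := by
  have hmQ : NeZero ((m : ℕ) : ℚ) := ⟨by exact_mod_cast NeZero.ne m⟩
  have hNQ : NeZero ((N : ℕ) : ℚ) := ⟨by exact_mod_cast NeZero.ne N⟩
  have h1 : IsCyclotomicExtension {m} ℚ (CyclotomicField m ℚ) := CyclotomicField.isCyclotomicExtension m ℚ
  have h2 : IsCyclotomicExtension {N} ℚ (CyclotomicField N ℚ) := CyclotomicField.isCyclotomicExtension N ℚ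
  set w : CyclotomicField N ℚ := (zeta N ℚ (CyclotomicField N ℚ)) ^ (N / m) with hw
  have hwp : IsPrimitiveRoot w m :=
    (zeta_spec N ℚ (CyclotomicField N ℚ)).pow (NeZero.pos N) (Nat.div_mul_cancel hm).symm
  have h3 : IsCyclotomicExtension {m} ℚ (IntermediateField.adjoin ℚ {w}) :=
    hwp.intermediateField_adjoin_isCyclotomicExtension ℚ
  let e : CyclotomicField m ℚ ≃ₐ[ℚ] IntermediateField.adjoin ℚ {w} :=
    IsCyclotomicExtension.algEquiv {m} ℚ _ _
  let κ : CyclotomicField m ℚ →ₐ[ℚ] CyclotomicField N ℚ :=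
    (IntermediateField.val _).comp e.toAlgHom
  refine ⟨κ, fun g a hg => ?_⟩
  let _ : Algebra (CyclotomicField m ℚ) (CyclotomicField N ℚ) := κ.toRingHom.toAlgebra
  have htow : IsScalarTower ℚ (CyclotomicField m ℚ) (CyclotomicField N ℚ) :=
    IsScalarTower.of_algebraMap_eq' (by
      ext x
      exact (κ.commutes x).symm)
  have hgal : IsGalois ℚ (CyclotomicField m ℚ) := IsCyclotomicExtension.isGalois {m} ℚ _
  have hcomm : ∀ y, g (κ y) = κ (g.restrictNormal (CyclotomicField m ℚ) y) := by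
    intro y
    exact (AlgEquiv.restrictNormal_commutes g (CyclotomicField m ℚ) y).symm
  refine ⟨g.restrictNormal (CyclotomicField m ℚ), hcomm, ?_⟩
  intro z hz
  apply κ.injective
  show κ (g.restrictNormal (CyclotomicField m ℚ) z) = κ (z ^ a)
  have hzN : z ^ N = 1 := by
    obtain ⟨t, ht⟩ := hm
    rw [ht, pow_mul, hz, one_pow]
  have hk : (κ z) ^ N = 1 := by
    rw [← map_pow, hzN, map_one]
  rw [← hcomm, hg _ hk, map_pow]

end Pool.Agent.Rcp
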