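import Pool.Agent.Rcp.Chr

/-!
# Reciprocity in `𝓞 ℚ(ζ_N)`, `N = p ∏ S`
-/

set_option autoImplicit false

namespace Pool.Agent.Rcp

open Finset Pool.Agent.Rnr NumberField IsCyclotomicExtension IsCyclotomicExtension.Rat

variable {r : ℕ} (c : Chars r)

theorem mem_Ig_iff (N m : ℕ) [NeZero N] (hm : m ∣ N) (g : (ZMod N)ˣ) (hg : g ∈ Ig N hm) (l : ℕ)
    (hl : l ∣ m) : ZMod.unitsMap (hl.trans hm) g = 1 := by
  rw [mem_Ig] at hg
  have h1 : ZMod.unitsMap (hl.trans hm) g = ZMod.unitsMap hl (ZMod.unitsMap hm g) := by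
    rw [← MonoidHom.comp_apply, ZMod.unitsMap_comp]
  rw [h1, hg, map_one]

theorem X_Ig (N m : ℕ) [NeZero N] (hm : m ∣ N) (g : (ZMod N)ˣ) (hg : g ∈ Ig N hm) (l : ℕ)
    (hl : l ∣ m) : X c l ((g.val.val : ℕ) : ZMod l) = 0 := by
  rw [X_unitsMap c N l (hl.trans hm), mem_Ig_iff N m hm g hg l hl, map_one, toAdd_one]

/-- the modulus -/
structure Mod (N : ℕ) (S : Finset ℕ) (p : ℕ) : Prop where
  hN : N = (∏ l ∈ S, l) * p
  hS : ∀ l ∈ S, l.Prime
  hp : p.Prime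
  hpS : p ∉ S

namespace Mod

variable {N : ℕ} {S : Finset ℕ} {p : ℕ} (h : Mod N S p)
include h

theorem prime_of_mem {q : ℕ} (hq : q ∈ insert p S) : q.Prime := by
  rcases mem_insert.mp hq with rfl | hq
  · exact h.hp
  · exact h.hS q hq

theorem eq_prod : N = ∏ l ∈ insert p S, l := by
  rw [prod_insert h.hpS, mul_comm]
  exact h.hN

theorem dvd {q : ℕ} (hq : q ∈ insert p S) : q ∣ N := by
  rw [h.eq_prod]
  exact dvd_prod_of_mem _ hq

theorem div_eq {q : ℕ} (hq : q ∈ insert p S) : N / q = ∏ l ∈ (insert p S).erase q, l := by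
  rw [h.eq_prod, ← mul_prod_erase _ (fun l => l) hq, Nat.mul_div_cancel_left _ (h.prime_of_mem hq).pos]

theorem mul_div {q : ℕ} (hq : q ∈ insert p S) : N = q * (N / q) :=
  (Nat.mul_div_cancel' (h.dvd hq)).symm

theorem div_dvd {q : ℕ} (hq : q ∈ insert p S) : N / q ∣ N := Nat.div_dvd_of_dvd (h.dvd hq)

theorem coprime {q : ℕ} (hq : q ∈ insert p S) : q.Coprime (N / q) := by
  rw [h.div_eq hq]
  refine Nat.Coprime.prod_right fun l hl => ?_
  rw [Nat.coprime_primes (h.prime_of_mem hq) (h.prime_of_mem (mem_of_mem_erase hl))]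
  exact (ne_of_mem_erase hl).symm

theorem dvd_div {q l : ℕ} (hq : q ∈ insert p S) (hl : l ∈ insert p S) (hne : l ≠ q) : l ∣ N / q := by
  rw [h.div_eq hq]
  exact dvd_prod_of_mem _ (mem_erase.mpr ⟨hne, hl⟩)

theorem psi_unit [NeZero N] (f : ℕ → ZMod r) {q : ℕ} (hq : q ∈ S) (g : (ZMod N)ˣ)
    (hg : ∀ l ∈ S, l ≠ q → X c l ((g.val.val : ℕ) : ZMod l) = 0) :
    psi c S f ((g.val.val : ℕ) : ℤ) = f q * X c q ((g.val.val : ℕ) : ZMod q) := by
  classical
  rw [psi_nat, ← add_sum_erase S _ hq, add_eq_left]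
  apply sum_eq_zero
  intro l hl
  rw [hg l (mem_of_mem_erase hl) (ne_of_mem_erase hl), mul_zero]

end Mod

/-- the data of the theorem -/
structure Dat (c : Chars r) (N : ℕ) (S : Finset ℕ) (f : ℕ → ZMod r) (p : ℕ) : Prop extends
    Mod N S p where
  hr : r.Prime
  hr2 : r ≠ 2
  hne : S.Nonempty
  sur : ∀ l ∈ S, Function.Surjective (c l)
  surp : Function.Surjective (c p)
  f0 : ∀ l ∈ S, f l ≠ 0
  h1 : psi c S f (p : ℤ) = 0
  h2 : ∀ l ∈ S, X c p (l : ZMod p) = 0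

/-- the character at `p` -/
noncomputable abbrev chp (c : Chars r) (N p : ℕ) : (ZMod N)ˣ →* Multiplicative (ZMod r) :=
  chi c N {p} fun _ => 1

namespace Dat

variable {N : ℕ} [NeZero N] {S : Finset ℕ} {f : ℕ → ZMod r} {p : ℕ} (h : Dat c N S f p)
include h

theorem chi_eq (g : (ZMod N)ˣ) :
    Multiplicative.toAdd (chi c N S f g) = psi c S f ((g.val.val : ℕ) : ℤ) := by
  have : NeZero r := ⟨h.hr.ne_zero⟩
  exact toAdd_chi c N S f (fun l hl => h.dvd (mem_insert_of_mem hl)) g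

theorem chp_eq (g : (ZMod N)ˣ) :
    Multiplicative.toAdd (chp c N p g) = X c p ((g.val.val : ℕ) : ZMod p) := by
  have : NeZero r := ⟨h.hr.ne_zero⟩
  rw [toAdd_chi c N {p} (fun _ => 1) (fun l hl => by
    rw [mem_singleton] at hl
    rw [hl]
    exact h.dvd (mem_insert_self _ _)) g]
  simp [psi]

theorem chi_one_iff (g : (ZMod N)ˣ) : chi c N S f g = 1 ↔ psi c S f ((g.val.val : ℕ) : ℤ) = 0 := by
  rw [← h.chi_eq, toAdd_eq_zero]

theorem chp_one_iff (g : (ZMod N)ˣ) : chp c N p g = 1 ↔ X c p ((g.val.val : ℕ) : ZMod p) = 0 := by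
  rw [← h.chp_eq, toAdd_eq_zero]

/-- elements `g = 1 mod N/l`, `χ(g) = 1` (additively) -/
theorem ex_s {l : ℕ} (hl : l ∈ S) : ∃ g : (ZMod N)ˣ, g ∈ Ig N (h.div_dvd (mem_insert_of_mem hl)) ∧
    chi c N S f g = Multiplicative.ofAdd 1 ∧ chp c N p g = 1 := by
  have hl' : l ∈ insert p S := mem_insert_of_mem hl
  have : Fact r.Prime := ⟨h.hr⟩
  obtain ⟨u, hu⟩ := h.sur l hl (Multiplicative.ofAdd ((f l)⁻¹))
  obtain ⟨g, hg1, hg2⟩ := unit_ex N l (N / l) (h.dvd hl') (h.div_dvd hl') (h.mul_div hl')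
    (h.coprime hl') u 1
  have hgI : g ∈ Ig N (h.div_dvd hl') := hg2
  refine ⟨g, hgI, ?_, ?_⟩
  · apply Multiplicative.toAdd.injective
    rw [h.chi_eq, h.toMod.psi_unit c f hl g, X_unitsMap c N l (h.dvd hl'), hg1, hu]
    · simp only [toAdd_ofAdd]
      rw [mul_inv_cancel₀ (h.f0 l hl)]
    · intro l' hl2 hne
      exact X_Ig c N (N / l) (h.div_dvd hl') g hgI l' (h.dvd_div hl' (mem_insert_of_mem hl2) hne)
  · rw [h.chp_one_iff]
    exact X_Ig c N (N / l) (h.div_dvd hl') g hgI p (h.dvd_div hl' (mem_insert_self _ _)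
      (fun e => h.hpS (e ▸ hl)))

theorem ex_t : ∃ g : (ZMod N)ˣ, g ∈ Ig N (h.div_dvd (mem_insert_self p S)) ∧
    chi c N S f g = 1 ∧ chp c N p g = Multiplicative.ofAdd 1 := by
  have hp' : p ∈ insert p S := mem_insert_self _ _
  obtain ⟨u, hu⟩ := h.surp (Multiplicative.ofAdd 1)
  obtain ⟨g, hg1, hg2⟩ := unit_ex N p (N / p) (h.dvd hp') (h.div_dvd hp') (h.mul_div hp')
    (h.coprime hp') u 1
  have hgI : g ∈ Ig N (h.div_dvd hp') := hg2
  refine ⟨g, hgI, ?_, ?_⟩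
  · rw [h.chi_one_iff, psi_nat]
    apply sum_eq_zero
    intro l hl
    rw [X_Ig c N (N / p) (h.div_dvd hp') g hgI l (h.dvd_div hp' (mem_insert_of_mem hl)
      (fun e => h.hpS (e ▸ hl))), mul_zero]
  · apply Multiplicative.toAdd.injective
    rw [h.chp_eq, X_unitsMap c N p (h.dvd hp'), hg1, hu]

/-- Frobenius elements in the common kernel -/
theorem ex_P {q : ℕ} (hq : q ∈ insert p S) : ∃ g : (ZMod N)ˣ,
    ZMod.unitsMap (h.div_dvd hq) g = ZMod.unitOfCoprime q (h.coprime hq) ∧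
    chi c N S f g = 1 ∧ chp c N p g = 1 := by
  have : Fact r.Prime := ⟨h.hr⟩
  -- the residue away from `q`
  have key : ∀ (g : (ZMod N)ˣ), ZMod.unitsMap (h.div_dvd hq) g = ZMod.unitOfCoprime q (h.coprime hq) →
      ∀ l ∈ insert p S, l ≠ q → X c l ((g.val.val : ℕ) : ZMod l) = X c l (q : ZMod l) := by
    intro g hg l hl hne
    congr 1
    have h1 : ZMod.unitsMap (h.dvd hl) g =
        ZMod.unitsMap (h.dvd_div hq hl hne) (ZMod.unitsMap (h.div_dvd hq) g) := by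
      rw [← MonoidHom.comp_apply, ZMod.unitsMap_comp]
    rw [hg] at h1
    have h2 := congrArg (fun u : (ZMod l)ˣ => (u : ZMod l)) h1
    simp only [ZMod.unitsMap_def, Units.coe_map, MonoidHom.coe_coe, ZMod.castHom_apply,
      ZMod.coe_unitOfCoprime, map_natCast] at h2
    rw [← ZMod.natCast_val] at h2
    exact h2.trans (by simp)
  rcases mem_insert.mp hq with rfl | hqS
  · obtain ⟨g, hg1, hg2⟩ := unit_ex N q (N / q) (h.dvd hq) (h.div_dvd hq) (h.mul_div hq)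
      (h.coprime hq) 1 (ZMod.unitOfCoprime q (h.coprime hq))
    refine ⟨g, hg2, ?_, ?_⟩
    · rw [h.chi_one_iff, ← h.h1]
      unfold psi
      refine sum_congr rfl fun l hl => ?_
      rw [Int.cast_natCast, Int.cast_natCast, key g hg2 l (mem_insert_of_mem hl) (fun e => h.hpS (e ▸ hl))]
    · rw [h.chp_one_iff, X_unitsMap c N q (h.dvd hq), hg1, map_one, toAdd_one]
  · -- the value at `q` is chosen
    obtain ⟨u, hu⟩ := h.sur q hqS
      (Multiplicative.ofAdd (-(f q)⁻¹ * ∑ l ∈ S.erase q, f l * X c l (q : ZMod l)))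
    obtain ⟨g, hg1, hg2⟩ := unit_ex N q (N / q) (h.dvd hq) (h.div_dvd hq) (h.mul_div hq)
      (h.coprime hq) u (ZMod.unitOfCoprime q (h.coprime hq))
    refine ⟨g, hg2, ?_, ?_⟩
    · rw [h.chi_one_iff, psi_nat, ← add_sum_erase S _ hqS]
      have e1 : ∑ l ∈ S.erase q, f l * X c l ((g.val.val : ℕ) : ZMod l) =
          ∑ l ∈ S.erase q, f l * X c l (q : ZMod l) := by
        refine sum_congr rfl fun l hl => ?_
        rw [key g hg2 l (mem_insert_of_mem (mem_of_mem_erase hl)) (ne_of_mem_erase hl)]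
      rw [e1, X_unitsMap c N q (h.dvd hq), hg1, hu, toAdd_ofAdd]
      have := h.f0 q hqS
      field_simp
      ring
    · rw [h.chp_one_iff, key g hg2 p (mem_insert_self _ _) (fun e => h.hpS (e ▸ hqS))]
      exact h.h2 q hqS

end Dat

end Pool.Agent.Rcp
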