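import Pool.Agent.Rcp.Ord

/-!
# The action of `(ℤ/N)ˣ` on the ring of integers of `ℚ(ζ_N)`
-/

set_option autoImplicit false

namespace Pool.Agent.Rcp

open Finset NumberField IsCyclotomicExtension IsCyclotomicExtension.Rat

variable (N : ℕ) [NeZero N] (E : Type*) [Field E] [NumberField E]
  [IsCyclotomicExtension {N} ℚ E]

/-- the action of `(ℤ/N)ˣ` on `𝓞 E` -/
@[instance_reducible]
noncomputable def act : MulSemiringAction (ZMod N)ˣ (𝓞 E) :=
  MulSemiringAction.compHom (𝓞 E) (galEquivZMod N E).symm.toMonoidHom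

/-- the root of unity -/
noncomputable def zt : 𝓞 E := (zeta_spec N ℚ E).toInteger

theorem zt_prim : IsPrimitiveRoot (zt N E) N := (zeta_spec N ℚ E).toInteger_isPrimitiveRoot

theorem zt_top : Algebra.adjoin ℤ {zt N E} = ⊤ := adjoin_singleton_eq_top (zeta_spec N ℚ E)

attribute [local instance] act

theorem smul_def' (g : (ZMod N)ˣ) (y : 𝓞 E) : g • y = ((galEquivZMod N E).symm g) • y := rfl

theorem smul_zt_pow (g : (ZMod N)ˣ) (y : 𝓞 E) (hy : y ^ N = 1) : g • y = y ^ g.val.val := by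
  rw [smul_def', galEquivZMod_smul_of_pow_eq N E _ hy, MulEquiv.apply_symm_apply]

theorem ringHom_ext {k : Type*} [CommRing k] (f g : 𝓞 E →+* k) (h : f (zt N E) = g (zt N E)) : f = g := by
  ext y
  have hy : y ∈ Algebra.adjoin ℤ {zt N E} := by rw [zt_top]; trivial
  induction hy using Algebra.adjoin_induction with
  | mem x hx =>
    rw [Set.mem_singleton_iff] at hx
    rw [hx, h]
  | algebraMap m => simp
  | add x y _ _ hx hy => rw [map_add, map_add, hx, hy]
  | mul x y _ _ hx hy => rw [map_mul, map_mul, hx, hy]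

/-- a fixed element is a rational integer -/
theorem fixed_int (y : 𝓞 E) (hy : ∀ g : (ZMod N)ˣ, g • y = y) : ∃ m : ℤ, (m : 𝓞 E) = y := by
  have hgal : IsGalois ℚ E := IsCyclotomicExtension.isGalois {N} ℚ E
  have h1 : ∀ g : Gal(E/ℚ), g (y : E) = y := by
    intro g
    have := hy (galEquivZMod N E g)
    rw [smul_def', MulEquiv.symm_apply_apply] at this
    exact congrArg (fun t : 𝓞 E => (t : E)) this
  have h2 : (y : E) ∈ (⊥ : IntermediateField ℚ E) := (IsGalois.mem_bot_iff_fixed _).mpr h1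
  rw [IntermediateField.mem_bot] at h2
  obtain ⟨q, hq⟩ := h2
  have h3 : IsIntegral ℤ q := by
    have h4 : IsIntegral ℤ (algebraMap ℚ E q) := by rw [hq]; exact y.isIntegral_coe
    exact (isIntegral_algebraMap_iff (algebraMap ℚ E).injective).mp h4
  obtain ⟨m, hm⟩ := IsIntegrallyClosed.isIntegral_iff.mp h3
  refine ⟨m, ?_⟩
  apply RingOfIntegers.ext
  have : ((m : 𝓞 E) : E) = (m : E) := by simp
  rw [this, ← hq, ← hm]
  simp

variable {m : ℕ} (hm : m ∣ N)

/-- the subgroup of the `g = 1 mod m` -/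
def Ig : Subgroup (ZMod N)ˣ := (ZMod.unitsMap hm).ker

theorem mem_Ig (g : (ZMod N)ˣ) : g ∈ Ig N hm ↔ ZMod.unitsMap hm g = 1 := MonoidHom.mem_ker

open IntermediateField in
/-- elements fixed by `I_m` lie in `ℤ[ζ_m]` -/
theorem fixed_adjoin (y : 𝓞 E) (hy : ∀ g ∈ Ig N hm, g • y = y) :
    y ∈ Algebra.adjoin ℤ {zt N E ^ (N / m)} := by
  have hgal : IsGalois ℚ E := IsCyclotomicExtension.isGalois {N} ℚ E
  have hm0 : NeZero m := ⟨fun h => NeZero.ne N (by subst h; exact Nat.eq_zero_of_zero_dvd hm)⟩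
  set w : E := (zeta N ℚ E) ^ (N / m) with hw
  have hwp : IsPrimitiveRoot w m := (zeta_spec N ℚ E).pow (NeZero.pos N) (Nat.div_mul_cancel hm).symm
  have hcyc : IsCyclotomicExtension {m} ℚ ℚ⟮w⟯ :=
    hwp.intermediateField_adjoin_isCyclotomicExtension ℚ
  -- `y ∈ ℚ(w)`
  have h1 : (y : E) ∈ ℚ⟮w⟯ := by
    rw [← IsGalois.fixedField_fixingSubgroup ℚ⟮w⟯]
    rw [IntermediateField.mem_fixedField_iff]
    intro s hs
    have hsw : s w = w := by
      rw [IntermediateField.mem_fixingSubgroup_iff] at hs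
      exact hs w (mem_adjoin_simple_self ℚ w)
    have h2 : galEquivZMod N E s ∈ Ig N hm := by
      rw [mem_Ig]
      have h3 : w ^ N = 1 := by
        rw [hw, ← pow_mul, mul_comm, pow_mul, (zeta_spec N ℚ E).pow_eq_one, one_pow]
      rw [galEquivZMod_apply_of_pow_eq N E s h3] at hsw
      have h4 : w ^ (galEquivZMod N E s).val.val = w ^ 1 := by rw [hsw, pow_one]
      rw [(hwp.isOfFinOrder (NeZero.ne _)).pow_inj_mod, ← hwp.eq_orderOf,
        ← ZMod.natCast_eq_natCast_iff'] at h4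
      ext
      rw [ZMod.unitsMap_def, Units.coe_map, MonoidHom.coe_coe, ZMod.castHom_apply, Units.val_one]
      rw [Nat.cast_one] at h4
      rw [← h4, ZMod.natCast_val]
    have h5 := hy _ h2
    rw [smul_def', MulEquiv.symm_apply_apply] at h5
    exact congrArg (fun t : 𝓞 E => (t : E)) h5
  have hNF : NumberField ℚ⟮w⟯ := IsCyclotomicExtension.numberField {m} ℚ _
  set w' : ℚ⟮w⟯ := AdjoinSimple.gen ℚ w with hw'
  have hwp' : IsPrimitiveRoot w' m := IsPrimitiveRoot.coe_submonoidClass_iff.mp hwp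
  have h6 : IsIntegral ℤ (⟨(y : E), h1⟩ : ℚ⟮w⟯) := by
    have : IsIntegral ℤ (algebraMap ℚ⟮w⟯ E ⟨(y : E), h1⟩) := y.isIntegral_coe
    exact (isIntegral_algebraMap_iff (algebraMap ℚ⟮w⟯ E).injective).mp this
  obtain ⟨z, hz⟩ := (isIntegralClosure_adjoin_singleton hwp').isIntegral_iff.mp h6
  have h7 : (⟨(y : E), h1⟩ : ℚ⟮w⟯) ∈ Algebra.adjoin ℤ {w'} := by
    rw [← hz]
    exact z.2
  have h8 : (y : E) ∈ Algebra.adjoin ℤ {w} := by
    have h8' : (y : E) ∈ (Algebra.adjoin ℤ {w'}).map (IsScalarTower.toAlgHom ℤ ℚ⟮w⟯ E) :=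
      Subalgebra.mem_map.mpr ⟨_, h7, rfl⟩
    rw [AlgHom.map_adjoin_singleton] at h8'
    exact h8'
  have h9 : (y : E) ∈ (Algebra.adjoin ℤ {zt N E ^ (N / m)}).map (IsScalarTower.toAlgHom ℤ (𝓞 E) E) := by
    rw [AlgHom.map_adjoin_singleton]
    have : (IsScalarTower.toAlgHom ℤ (𝓞 E) E) (zt N E ^ (N / m)) = w := by
      rw [map_pow]
      rfl
    rw [this]
    exact h8
  obtain ⟨z', hz', hz''⟩ := Subalgebra.mem_map.mp h9
  have : z' = y := RingOfIntegers.ext hz''
  rwa [← this]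

/-- Frobenius -/
theorem frob (v : ℕ) (hv : v.Prime) (hvm : v.Coprime m) (F : (ZMod N)ˣ)
    (hF : ZMod.unitsMap hm F = ZMod.unitOfCoprime v hvm) (y : 𝓞 E)
    (hy : ∀ g ∈ Ig N hm, g • y = y) : (v : 𝓞 E) ∣ y ^ v - F • y := by
  have hm0 : NeZero m := ⟨fun h => NeZero.ne N (by subst h; exact Nat.eq_zero_of_zero_dvd hm)⟩
  set w : 𝓞 E := zt N E ^ (N / m) with hw
  have hwm : w ^ m = 1 := by
    rw [hw, ← pow_mul, Nat.div_mul_cancel hm, (zt_prim N E).pow_eq_one]
  have hwN : w ^ N = 1 := by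
    obtain ⟨q, hq⟩ := hm
    rw [hq, pow_mul, hwm, one_pow]
  have hFw : F • w = w ^ v := by
    rw [smul_zt_pow N E F w hwN]
    have h1 : (F.val.val : ZMod m) = (v : ZMod m) := by
      have := congrArg (fun u : (ZMod m)ˣ => (u : ZMod m)) hF
      simp only [ZMod.unitsMap_def, Units.coe_map, MonoidHom.coe_coe, ZMod.castHom_apply,
        ZMod.coe_unitOfCoprime] at this
      rw [← this, ZMod.natCast_val]
    rw [ZMod.natCast_eq_natCast_iff'] at h1
    rw [← Nat.mod_add_div F.val.val m, h1]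
    conv_rhs => rw [← Nat.mod_add_div v m]
    rw [pow_add, pow_add, pow_mul, pow_mul w m, hwm, one_pow, one_pow]
  have h := fixed_adjoin N E hm y hy
  clear hy
  induction h using Algebra.adjoin_induction with
  | mem x hx =>
    rw [Set.mem_singleton_iff] at hx
    rw [hx, hFw, sub_self]
    exact dvd_zero _
  | algebraMap k =>
    have h1 : F • (algebraMap ℤ (𝓞 E) k) = algebraMap ℤ (𝓞 E) k := by
      simpa using smul_int (O := 𝓞 E) F k
    rw [h1, ← map_pow, ← map_sub]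
    have h2 : (v : ℤ) ∣ k ^ v - k := by
      have : Fact v.Prime := ⟨hv⟩
      rw [← ZMod.intCast_zmod_eq_zero_iff_dvd]
      push_cast
      rw [ZMod.pow_card, sub_self]
    obtain ⟨c, hc⟩ := h2
    rw [hc, map_mul]
    simp
  | add x z _ _ hx hz =>
    obtain ⟨t, ht⟩ := exists_add_pow_prime_eq hv x z
    rw [ht, smul_add]
    have : x ^ v + z ^ v + (v : 𝓞 E) * x * z * t - (F • x + F • z) =
        (x ^ v - F • x) + (z ^ v - F • z) + (v : 𝓞 E) * (x * z * t) := by ring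
    rw [this]
    exact dvd_add (dvd_add hx hz) (dvd_mul_right _ _)
  | mul x z _ _ hx hz =>
    rw [mul_pow, smul_mul']
    have : x ^ v * z ^ v - (F • x) * (F • z) =
        (x ^ v - F • x) * z ^ v + (F • x) * (z ^ v - F • z) := by ring
    rw [this]
    exact dvd_add (hx.mul_right _) (hz.mul_left _)

end Pool.Agent.Rcp
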