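import Pool.Agent.Rcp.Client

/-!
# The cyclic fields inside `ℚ(ζ_N)`
-/

set_option autoImplicit false

namespace Pool.Agent.Rcp

open Finset Pool.Agent.Rnr NumberField IsCyclotomicExtension IsCyclotomicExtension.Rat

attribute [local instance] act

instance cycExt (N : ℕ) [NeZero N] : IsCyclotomicExtension {N} ℚ (CyclotomicField N ℚ) := by
  have hNQ : NeZero ((N : ℕ) : ℚ) := ⟨by exact_mod_cast NeZero.ne N⟩
  exact CyclotomicField.isCyclotomicExtension N ℚ

/-- `𝓞 F` embedded in `𝓞 ℚ(ζ_N)` -/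
theorem emb_E {r : ℕ} {c : Chars r} {S : Finset ℕ} {f : ℕ → ZMod r} {F : Type} [Field F]
    [NumberField F] {σ : F ≃ₐ[ℚ] F} (h : IsCyc r c S f F σ) (N : ℕ) [NeZero N]
    (hN : cond S ∣ N) :
    ∃ m : 𝓞 F →+* 𝓞 (CyclotomicField N ℚ), Function.Injective m ∧
      ∀ (g : (ZMod N)ˣ) (x : 𝓞 F),
        g • m x = m (σ ^ (psi c S f ((g.val.val : ℕ) : ℤ)).val • x) := by
  have hS0 : NeZero (cond S) := ⟨by
    intro h0
    rw [h0, zero_dvd_iff] at hN
    exact NeZero.ne N hN⟩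
  obtain ⟨ι, hι⟩ := h.emb
  obtain ⟨κ, hκ⟩ := cyc_emb (cond S) N hN
  refine ⟨RingOfIntegers.mapRingHom (κ.comp ι).toRingHom, ?_, ?_⟩
  · intro x y hxy
    have h1 := congrArg (fun z : 𝓞 (CyclotomicField N ℚ) => (z : CyclotomicField N ℚ)) hxy
    simp only [RingOfIntegers.mapRingHom_apply] at h1
    exact RingOfIntegers.ext ((κ.comp ι).injective h1)
  · intro g x
    apply RingOfIntegers.ext
    obtain ⟨g', hg1, hg2⟩ := hκ ((galEquivZMod N (CyclotomicField N ℚ)).symm g) g.val.val (by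
      intro z hz
      rw [galEquivZMod_apply_of_pow_eq N _ _ hz, MulEquiv.apply_symm_apply])
    have h2 := hι g' g.val.val hg2 (x : F)
    show ((galEquivZMod N (CyclotomicField N ℚ)).symm g) (κ (ι (x : F))) =
      κ (ι ((σ ^ (psi c S f ((g.val.val : ℕ) : ℤ)).val) (x : F)))
    rw [hg1, h2]

end Pool.Agent.Rcp
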