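import Pool.Agent.Rcp.Emb

/-!
# Reciprocity for the cyclic fields of degree `r`
-/

set_option autoImplicit false

namespace Pool.Agent.Rcp

open Finset Pool.Agent.Rnr NumberField IsCyclotomicExtension IsCyclotomicExtension.Rat

attribute [local instance] act

theorem smul_pow_of {G A B : Type*} [Group G] [CommRing A] [CommRing B] [MulSemiringAction G B]
    {H : Type*} [Group H] [MulSemiringAction H A] (m : A →+* B) (g : G) (s : H)
    (hg : ∀ x, g • m x = m (s • x)) (i : ℕ) (x : A) : g ^ i • m x = m (s ^ i • x) := by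
  induction i with
  | zero => simp
  | succ i ih =>
    rw [pow_succ', mul_smul, ih, hg, pow_succ', mul_smul]

/-- one of the two fields -/
theorem one_field {r : ℕ} {c : Chars r} {S : Finset ℕ} {f : ℕ → ZMod r} {F : Type} [Field F]
    [NumberField F] {σ : F ≃ₐ[ℚ] F} (h : IsCyc r c S f F σ) (N : ℕ) [NeZero N]
    (hN : cond S ∣ N) (al : 𝓞 F) (M : ℤ) (hal : ∏ i ∈ range r, σ ^ i • al = (M : 𝓞 F)) :
    ∃ m : 𝓞 F →+* 𝓞 (CyclotomicField N ℚ), Function.Injective m ∧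
      (∀ g : (ZMod N)ˣ, psi c S f ((g.val.val : ℕ) : ℤ) = 0 → g • m al = m al) ∧
      (∀ g : (ZMod N)ˣ, psi c S f ((g.val.val : ℕ) : ℤ) = 1 → ∀ i : ℕ, g ^ i • m al = m (σ ^ i • al)) ∧
      (∀ g : (ZMod N)ˣ, psi c S f ((g.val.val : ℕ) : ℤ) = 1 →
        nm r g (m al) = (M : 𝓞 (CyclotomicField N ℚ))) := by
  have hr1 : Fact (1 < r) := ⟨h.good.pr.one_lt⟩
  obtain ⟨m, hm, hact⟩ := emb_E h N hN
  have key : ∀ g : (ZMod N)ˣ, psi c S f ((g.val.val : ℕ) : ℤ) = 1 → ∀ i : ℕ,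
      g ^ i • m al = m (σ ^ i • al) := by
    intro g hg i
    apply smul_pow_of m g σ
    intro x
    rw [hact g x, hg, ZMod.val_one, pow_one]
  refine ⟨m, hm, ?_, key, ?_⟩
  · intro g hg
    rw [hact g al, hg, ZMod.val_zero, pow_zero, one_smul]
  · intro g hg
    have h1 := congrArg m hal
    rw [map_prod, map_intCast] at h1
    rw [← h1]
    unfold nm
    exact prod_congr rfl fun i _ => key g hg i

/-- RECIPROCITY for the cyclic fields of degree `r` -/
theorem rec {r : ℕ} {c : Chars r} {S : Finset ℕ} {f : ℕ → ZMod r} {p : ℕ}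
    {F : Type} [Field F] [NumberField F] {σ : F ≃ₐ[ℚ] F}
    {K : Type} [Field K] [NumberField K] {τ : K ≃ₐ[ℚ] K}
    (hF : IsCyc r c S f F σ) (hK : IsCyc r c {p} (fun _ => 1) K τ)
    (hpS : p ∉ S) (h1 : psi c S f (p : ℤ) = 0) (h2 : ∀ l ∈ S, X c p (l : ZMod p) = 0)
    (al : 𝓞 F) (ga : 𝓞 K) (M : ℤ)
    (hal : ∏ i ∈ range r, σ ^ i • al = (M : 𝓞 F)) (hga : ∏ i ∈ range r, τ ^ i • ga = (M : 𝓞 K))
    (hM : ∀ v : ℕ, v.Prime → (v : ℤ) ∣ M →
      v ∉ S ∧ v ≠ p ∧ psi c S f (v : ℤ) = 0 ∧ X c p (v : ZMod p) = 0)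
    (φ : 𝓞 F →+* ZMod p) (P : (l : ℕ) → 𝓞 K → ZMod l)
    (hP : ∀ l ∈ S, ∃ g : 𝓞 K →+* ZMod l, ∀ x, P l x = g x) :
    Sf c p σ φ al + ∑ l ∈ S, f l * Sf c l τ (P l) ga = 0 := by
  classical
  have hp : p.Prime := hK.good.prime p (mem_singleton_self p)
  have hpsi : ∀ n : ℕ, psi c {p} (fun _ => 1) ((n : ℕ) : ℤ) = X c p ((n : ℕ) : ZMod p) := by
    intro n
    simp [psi]
  have hcp : cond {p} = p := by simp [Rnr.cond]
  have hS0 : cond S ≠ 0 := by
    unfold Rnr.cond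
    exact prod_ne_zero_iff.mpr fun l hl => (hF.good.prime l hl).ne_zero
  have hN0 : NeZero (cond S * p) := ⟨mul_ne_zero hS0 hp.ne_zero⟩
  obtain ⟨N, hN⟩ : ∃ N, N = cond S * p := ⟨_, rfl⟩
  have hNZ : NeZero N := ⟨by rw [hN]; exact hN0.ne⟩
  have hM0 : M ≠ 0 := by
    rintro rfl
    exact (hM p hp (dvd_zero _)).2.1 rfl
  have hd : Dat c N S f p :=
    { hN := hN
      hS := hF.good.prime
      hp := hp
      hpS := hpS
      hr := hF.good.pr
      hr2 := hF.good.odd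
      hne := hF.good.ne
      sur := hF.good.sur
      surp := hK.good.sur p (mem_singleton_self p)
      f0 := hF.good.f0
      h1 := h1
      h2 := h2 }
  obtain ⟨mF, hmF, hF0, hF1, hFN⟩ := one_field hF N (by rw [hN]; exact dvd_mul_right _ _) al M hal
  obtain ⟨mK, hmK, hK0, hK1, hKN⟩ := one_field hK N (by rw [hN, hcp]; exact dvd_mul_left _ _) ga M hga
  -- the ideals
  have hIex : ∀ q : ℕ, ∃ I : Ideal (𝓞 (CyclotomicField N ℚ)), q ∈ insert p S →
      (I.IsMaximal ∧ (q : 𝓞 (CyclotomicField N ℚ)) ∈ I ∧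
      (∀ hq : q = p, ∀ x : 𝓞 F, mF x - (((φ x).val : ℤ) : 𝓞 (CyclotomicField N ℚ)) ∈ I) ∧
      (q ∈ S → ∀ x : 𝓞 K, mK x - (((P q x).val : ℤ) : 𝓞 (CyclotomicField N ℚ)) ∈ I)) := by
    intro q
    by_cases hq : q ∈ insert p S
    · rcases mem_insert.mp hq with hqp | hqS
      · have hpf : Fact p.Prime := ⟨hp⟩
        obtain ⟨I, hI1, hI2, hI3⟩ := ideal_ext mF hmF p φ
        refine ⟨I, fun _ => ⟨hI1, ?_, fun _ => hI3, ?_⟩⟩
        · rw [hqp]
          exact hI2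
        · intro hqS
          exact absurd (hqp ▸ hqS) hpS
      · have hqf : Fact q.Prime := ⟨hF.good.prime q hqS⟩
        obtain ⟨g, hg⟩ := hP q hqS
        obtain ⟨I, hI1, hI2, hI3⟩ := ideal_ext mK hmK q g
        refine ⟨I, fun _ => ⟨hI1, hI2, ?_, ?_⟩⟩
        · intro hqp
          exact absurd (hqp ▸ hqS) hpS
        · intro _ x
          rw [hg x]
          exact hI3 x
    · exact ⟨⊤, fun h => absurd h hq⟩
  choose I hI using hIex
  have hpI : p ∈ insert p S := mem_insert_self _ _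
  have he : Elt (c := c) (N := N) (S := S) (f := f) (p := p) (CyclotomicField N ℚ) M (mF al)
      (mK ga) :=
    { ha := fun g hg => hF0 g ((hd.chi_one_iff c g).mp hg)
      hb := fun g hg => hK0 g (by
        rw [hpsi]
        exact (hd.chp_one_iff c g).mp hg)
      ha1 := fun g hg => hFN g (by
        rw [← hd.chi_eq c g, hg, toAdd_ofAdd])
      hb1 := fun g hg => hKN g (by
        rw [hpsi, ← hd.chp_eq c g, hg, toAdd_ofAdd])
      hM := fun v hv hvM => by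
        obtain ⟨a1, a2, a3, a4⟩ := hM v hv hvM
        exact ⟨a1, a2, by rw [a3, a4]⟩ }
  have hfin := recip hd (CyclotomicField N ℚ) M (mF al) (mK ga) he hM0 I
    (fun q hq => (hI q hq).1) (fun q hq => (hI q hq).2.1)
    (fun i => ((φ (σ ^ i • al)).val : ℤ)) (fun l i => ((P l (τ ^ i • ga)).val : ℤ))
    (fun g hg i _ => by
      rw [hF1 g (by rw [← hd.chi_eq c g, hg, toAdd_ofAdd]) i]
      exact (hI p hpI).2.2.1 rfl _)
    (fun l hl g hg i _ => by
      rw [hK1 g (by rw [hpsi, ← hd.chp_eq c g, hg, toAdd_ofAdd]) i]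
      exact (hI l (mem_insert_of_mem hl)).2.2.2 hl _)
  have hpf : Fact p.Prime := ⟨hp⟩
  have e1 : Sf c p σ φ al = ∑ i ∈ range r, (i : ZMod r) *
      X c p ((((φ (σ ^ i • al)).val : ℤ) : ℤ) : ZMod p) := by
    unfold Sf
    refine sum_congr rfl fun i _ => ?_
    rw [Int.cast_natCast, ZMod.natCast_zmod_val]
  have e2 : ∀ l ∈ S, f l * Sf c l τ (P l) ga = f l * ∑ i ∈ range r, (i : ZMod r) *
      X c l ((((P l (τ ^ i • ga)).val : ℤ) : ℤ) : ZMod l) := by
    intro l hl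
    have hlf : Fact l.Prime := ⟨hF.good.prime l hl⟩
    unfold Sf
    congr 1
    refine sum_congr rfl fun i _ => ?_
    rw [Int.cast_natCast, ZMod.natCast_zmod_val]
  rw [e1, sum_congr rfl e2]
  exact hfin

end Pool.Agent.Rcp
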