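import Pool.Agent.Rcp.Xex

/-!
# Local lemmas at a prime `q` with `N = q m`
-/

set_option autoImplicit false

namespace Pool.Agent.Rcp

open Finset NumberField IsCyclotomicExtension IsCyclotomicExtension.Rat

/-- units modulo `N = q m` with prescribed residues -/
theorem unit_ex (N q m : ℕ) [NeZero N] (hq : q ∣ N) (hm : m ∣ N) (hN : N = q * m)
    (hqm : q.Coprime m) (u : (ZMod q)ˣ) (w : (ZMod m)ˣ) :
    ∃ g : (ZMod N)ˣ, ZMod.unitsMap hq g = u ∧ ZMod.unitsMap hm g = w := by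
  have hq0 : NeZero q := ⟨fun h => NeZero.ne N (by rw [hN, h, zero_mul])⟩
  have hm0 : NeZero m := ⟨fun h => NeZero.ne N (by rw [hN, h, mul_zero])⟩
  obtain ⟨n, hn1, hn2⟩ := Nat.chineseRemainder hqm (u : ZMod q).val (w : ZMod m).val
  have e1 : (n : ZMod q) = u := by
    have := (ZMod.natCast_eq_natCast_iff _ _ q).mpr hn1
    rw [this, ZMod.natCast_zmod_val]
  have e2 : (n : ZMod m) = w := by
    have := (ZMod.natCast_eq_natCast_iff _ _ m).mpr hn2
    rw [this, ZMod.natCast_zmod_val]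
  have c1 : n.Coprime q := (ZMod.isUnit_iff_coprime n q).mp (by rw [e1]; exact u.isUnit)
  have c2 : n.Coprime m := (ZMod.isUnit_iff_coprime n m).mp (by rw [e2]; exact w.isUnit)
  have c3 : n.Coprime N := by rw [hN]; exact Nat.Coprime.mul_right c1 c2
  refine ⟨ZMod.unitOfCoprime n c3, ?_, ?_⟩
  · ext
    rw [ZMod.unitsMap_def, Units.coe_map, MonoidHom.coe_coe, ZMod.coe_unitOfCoprime,
      map_natCast, e1]
  · ext
    rw [ZMod.unitsMap_def, Units.coe_map, MonoidHom.coe_coe, ZMod.coe_unitOfCoprime,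
      map_natCast, e2]

variable (N : ℕ) [NeZero N] (E : Type*) [Field E] [NumberField E]
  [IsCyclotomicExtension {N} ℚ E]

attribute [local instance] act

variable {r : ℕ} {χ ψ : (ZMod N)ˣ →* Multiplicative (ZMod r)}

/-- elements fixed by `H` are congruent to integers modulo `I` -/
theorem loc_int {m q : ℕ} [hq : Fact q.Prime] (hm : m ∣ N) (hN : N = q * m) (hqm : q.Coprime m)
    (I : Ideal (𝓞 E)) [I.IsMaximal] (hqI : (q : 𝓞 E) ∈ I) (P : (ZMod N)ˣ)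
    (hP : ZMod.unitsMap hm P = ZMod.unitOfCoprime q hqm) (hP1 : χ P = 1) (hP2 : ψ P = 1)
    (c : 𝓞 E) (hc : Hfix χ ψ c) : ∃ u : ZMod q, c - (u.val : 𝓞 E) ∈ I := by
  let _ : Field (𝓞 E ⧸ I) := Ideal.Quotient.field I
  have hchar : CharP (𝓞 E ⧸ I) q := by
    refine (CharP.charP_iff_prime_eq_zero hq.out).mpr ?_
    rw [← map_natCast (Ideal.Quotient.mk I)]
    exact Ideal.Quotient.eq_zero_iff_mem.mpr hqI
  have h1 := Phi_frob N E hm q (Ideal.Quotient.mk I) hN hqm P hP c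
  rw [hc P hP1 hP2] at h1
  obtain ⟨u, hu⟩ := mem_prime q _ h1.symm
  refine ⟨u, ?_⟩
  rw [← Ideal.Quotient.eq_zero_iff_mem, map_sub, ← hu, map_natCast, sub_eq_zero]
  conv_lhs => rw [← ZMod.natCast_zmod_val u]
  rw [map_natCast]

/-- existence of `x` at one prime -/
theorem loc_x {m q : ℕ} [hq : Fact q.Prime] [hr : Fact r.Prime] (hm : m ∣ N)
    (hqm : q.Coprime m)
    (I : Ideal (𝓞 E)) [I.IsMaximal] (hqI : (q : 𝓞 E) ∈ I) (σ τ : (ZMod N)ˣ)
    (lam : (ZMod N)ˣ →* Multiplicative (ZMod r)) (hl : ∀ g ∈ Ig N hm, lam g = 1)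
    (hlH : ∀ g, χ g = 1 → ψ g = 1 → lam g = 1)
    (hlst : lam (σ * τ) = Multiplicative.ofAdd 1) (a b : 𝓞 E)
    (M : ℤ) (hb : nm r τ b = (M : 𝓞 E)) (hM : ¬ (q : ℤ) ∣ M) :
    ∃ x : 𝓞 E, Hfix χ ψ x ∧ cc r σ τ a b x ∉ I := by
  let _ : Field (𝓞 E ⧸ I) := Ideal.Quotient.field I
  have hchar : CharP (𝓞 E ⧸ I) q := by
    refine (CharP.charP_iff_prime_eq_zero hq.out).mpr ?_
    rw [← map_natCast (Ideal.Quotient.mk I)]
    exact Ideal.Quotient.eq_zero_iff_mem.mpr hqI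
  have hrp : r.Prime := hr.out
  have hsep : ∀ i : ℕ, 0 < i → i < r → ∃ x : 𝓞 E, Hfix χ ψ x ∧
      (Ideal.Quotient.mk I) ((σ * τ) ^ i • x) ≠ (Ideal.Quotient.mk I) x := by
    intro i hi hir
    have hne : lam ((σ * τ) ^ i) ≠ 1 := by
      rw [map_pow, hlst, ← ofAdd_nsmul]
      intro h
      have h2 : (i : ZMod r) = 0 := by
        have := congrArg Multiplicative.toAdd h
        simpa using this
      rw [ZMod.natCast_eq_zero_iff] at h2
      exact absurd (Nat.le_of_dvd hi h2) (by omega)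
    obtain ⟨x, hx, hx2⟩ := sep N E hm q (Ideal.Quotient.mk I) hqm lam hl ((σ * τ) ^ i) hne
    exact ⟨x, fun g h1 h2 => hx g (hlH g h1 h2), hx2⟩
  have hA : (Ideal.Quotient.mk I) (∏ k ∈ Ico 1 r, τ ^ k • b) ≠ 0 := by
    intro h
    have h1 : (Ideal.Quotient.mk I) (M : 𝓞 E) = 0 := by
      rw [← hb]
      unfold nm
      obtain ⟨s, hs⟩ : ∃ s, r = s + 1 := ⟨r - 1, by have := hrp.pos; omega⟩
      rw [hs] at h ⊢
      rw [range_eq_Ico, prod_eq_prod_Ico_succ_bot (by omega), map_mul, h, mul_zero]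
    rw [map_intCast] at h1
    exact hM ((CharP.intCast_eq_zero_iff (𝓞 E ⧸ I) q M).mp h1)
  obtain ⟨x, hx, hx2⟩ := exists_x_one (Ideal.Quotient.mk I) hrp.pos σ τ a b hsep hA
  exact ⟨x, hx, fun h => hx2 (Ideal.Quotient.eq_zero_iff_mem.mpr h)⟩

end Pool.Agent.Rcp
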