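import Pool.Agent.Rcp.Core

/-!
# Reciprocity in `𝓞 ℚ(ζ_N)`: the theorem
-/

set_option autoImplicit false

namespace Pool.Agent.Rcp

open Finset Pool.Agent.Rnr NumberField IsCyclotomicExtension IsCyclotomicExtension.Rat

variable {r : ℕ} {c : Chars r} {N : ℕ} [NeZero N] {S : Finset ℕ} {f : ℕ → ZMod r} {p : ℕ}
  (h : Dat c N S f p) (E : Type*) [Field E] [NumberField E] [IsCyclotomicExtension {N} ℚ E]

attribute [local instance] act

/-- congruences of natural numbers modulo a prime ideal over `q` -/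
theorem cast_eq_of_mem {q : ℕ} [hq : Fact q.Prime] (I : Ideal (𝓞 E)) [hI : I.IsPrime]
    (hqI : (q : 𝓞 E) ∈ I) (x y : ℤ) (hxy : (x : 𝓞 E) - y ∈ I) : (x : ZMod q) = y := by
  by_contra hne
  have h1 : ¬ (q : ℤ) ∣ x - y := by
    intro hd
    apply hne
    have := (ZMod.intCast_eq_intCast_iff_dvd_sub y x q).mpr hd
    exact this.symm
  have hcop : IsCoprime (q : ℤ) (x - y) :=
    (Prime.coprime_iff_not_dvd (Nat.prime_iff_prime_int.mp hq.out)).mpr h1
  obtain ⟨u, w, huw⟩ := hcop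
  apply hI.ne_top
  rw [Ideal.eq_top_iff_one]
  have h4 := congrArg (fun z : ℤ => (z : 𝓞 E)) huw
  push_cast at h4
  rw [← h4]
  exact I.add_mem (I.mul_mem_left _ hqI) (I.mul_mem_left _ hxy)

/-- product congruence -/
theorem prod_sub_mem {R : Type*} [CommRing R] (I : Ideal R) (s : Finset ℕ) (u w : ℕ → R)
    (huw : ∀ i ∈ s, u i - w i ∈ I) : (∏ i ∈ s, u i) - ∏ i ∈ s, w i ∈ I := by
  rw [← Ideal.Quotient.eq_zero_iff_mem, map_sub, map_prod, map_prod, sub_eq_zero]
  refine prod_congr rfl fun i hi => ?_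
  rw [← sub_eq_zero, ← map_sub, Ideal.Quotient.eq_zero_iff_mem]
  exact huw i hi

theorem pow_sub_mem {R : Type*} [CommRing R] (I : Ideal R) (u w : R) (n : ℕ)
    (huw : u - w ∈ I) : u ^ n - w ^ n ∈ I := by
  obtain ⟨t, ht⟩ := sub_dvd_pow_sub_pow u w n
  rw [ht]
  exact I.mul_mem_right _ huw

/-- Data of the elements. -/
structure Elt (M : ℤ) (a b : 𝓞 E) : Prop where
  ha : ∀ g : (ZMod N)ˣ, chi c N S f g = 1 → g • a = a
  hb : ∀ g : (ZMod N)ˣ, chp c N p g = 1 → g • b = b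
  ha1 : ∀ g : (ZMod N)ˣ, chi c N S f g = Multiplicative.ofAdd 1 → nm r g a = (M : 𝓞 E)
  hb1 : ∀ g : (ZMod N)ˣ, chp c N p g = Multiplicative.ofAdd 1 → nm r g b = (M : 𝓞 E)
  hM : ∀ v : ℕ, v.Prime → (v : ℤ) ∣ M → v ∉ S ∧ v ≠ p ∧
    psi c S f (v : ℤ) = X c p (v : ZMod p)

include h in
/-- existence of the integer `R` with everything known about it -/
theorem main_R (M : ℤ) (a b : 𝓞 E) (he : Elt (c := c) (N := N) (S := S) (f := f) (p := p) E M a b)
    (hM0 : M ≠ 0)
    (I : ℕ → Ideal (𝓞 E)) (hI : ∀ q ∈ insert p S, (I q).IsMaximal)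
    (hqI : ∀ q ∈ insert p S, (q : 𝓞 E) ∈ I q) (σ τ : (ZMod N)ˣ)
    (hσ : chi c N S f σ = Multiplicative.ofAdd 1) (hσ' : chp c N p σ = 1)
    (hτ : chi c N S f τ = 1) (hτ' : chp c N p τ = Multiplicative.ofAdd 1) :
    ∃ (R : ℤ) (z : 𝓞 E), Hfix (chi c N S f) (chp c N p) z ∧ (∀ q ∈ insert p S, z ∉ I q) ∧
      (R : 𝓞 E) = th r σ a * nm r τ z ∧
      th r τ b * (R : 𝓞 E) = (M : 𝓞 E) ^ (r - 1) * nm r σ z ∧
      (∀ v : ℕ, v.Prime → v ∉ insert p S → X c p (v : ZMod p) ≠ psi c S f (v : ℤ) →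
        R ≠ 0 → r ∣ R.natAbs.factorization v) := by
  have hrf : Fact r.Prime := ⟨h.hr⟩
  have hr0 : NeZero r := ⟨h.hr.ne_zero⟩
  have hMO : (M : 𝓞 E) ≠ 0 := by exact_mod_cast hM0
  have hNa := he.ha1 σ hσ
  have hNb := he.hb1 τ hτ'
  have ha0 : a ≠ 0 := by
    rintro rfl
    apply hMO
    rw [← hNa]
    unfold nm
    apply prod_eq_zero (mem_range.mpr h.hr.pos)
    simp
  have haH : Hfix (chi c N S f) (chp c N p) a := fun g h1 _ => he.ha g h1
  have hbH : Hfix (chi c N S f) (chp c N p) b := fun g _ h1 => he.hb g h1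
  -- existence of x
  have hx1 : ∀ q ∈ insert p S, ∃ x : 𝓞 E, Hfix (chi c N S f) (chp c N p) x ∧
      cc r σ τ a b x ∉ I q := by
    intro q hq
    have hqp : Fact q.Prime := ⟨h.prime_of_mem hq⟩
    have hImax : (I q).IsMaximal := hI q hq
    have hqM : ¬ (q : ℤ) ∣ M := by
      intro hd
      obtain ⟨h1, h2, _⟩ := he.hM q hqp.out hd
      rcases mem_insert.mp hq with rfl | h3
      · exact h2 rfl
      · exact h1 h3
    by_cases hqe : q = p
    · subst hqe
      refine loc_x N E (h.div_dvd hq) (h.coprime hq) (I q) (hqI q hq) σ τ (chi c N S f) ?_ ?_ ?_ a b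
        M hNb hqM
      · intro g hg
        rw [h.chi_one_iff, psi_nat]
        apply sum_eq_zero
        intro l hl
        rw [X_Ig c N (N / q) (h.div_dvd hq) g hg l (h.dvd_div hq (mem_insert_of_mem hl)
          (fun e => h.hpS (e ▸ hl))), mul_zero]
      · intro g h1 _
        exact h1
      · rw [map_mul, hσ, hτ, mul_one]
    · refine loc_x N E (h.div_dvd hq) (h.coprime hq) (I q) (hqI q hq) σ τ (chp c N p) ?_ ?_ ?_ a b
        M hNb hqM
      · intro g hg
        rw [h.chp_one_iff]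
        exact X_Ig c N (N / q) (h.div_dvd hq) g hg p (h.dvd_div hq (mem_insert_self _ _)
          (fun e => hqe e.symm))
      · intro g _ h1
        exact h1
      · rw [map_mul, hσ', hτ', one_mul]
  obtain ⟨x, hx, hxI⟩ := exists_x_all σ τ a b (insert p S) (fun q hq => h.prime_of_mem hq) I
    (fun q hq => (hI q hq).isPrime) hqI hx1
  set z := cc r σ τ a b x with hz
  have hzH : Hfix (chi c N S f) (chp c N p) z := fun g h1 h2 =>
    cc_fixed r σ τ g a b x (he.ha g h1) (he.hb g h2) (hx g h1 h2)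
  have hzb : z * b = a * ((σ * τ) • z) :=
    cc_eq r σ τ a b x (he.ha τ hτ) (he.hb σ hσ') hbH.pow_r hx.pow_r (by rw [hNa, hNb])
  obtain ⟨R, hR⟩ := fixed_int N E (th r σ a * nm r τ z) fun g =>
    R_fixed hσ hσ' hτ hτ' he.ha hzH hzb (by rw [hNa, hNb]) ha0 (by rw [hNa]; exact hMO) g
  refine ⟨R, z, hzH, hxI, hR, ?_, ?_⟩
  · rw [hR, ← hNa]
    exact th_mul r σ τ a b z (he.ha τ hτ) (he.hb σ hσ') hbH.pow_r hzH.pow_r hzb
  · intro v hv hvS hne hR0
    have hvN : v.Coprime N := by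
      rw [h.eq_prod]
      refine Nat.Coprime.prod_right fun l hl => ?_
      rw [Nat.coprime_primes hv (h.prime_of_mem hl)]
      rintro rfl
      exact hvS hl
    have hvM : ¬ (v : ℤ) ∣ M := by
      intro hd
      exact hne (he.hM v hv hd).2.2.symm
    have hI1 : ∀ g ∈ Ig N (dvd_refl N), chi c N S f g = 1 ∧ chp c N p g = 1 := by
      intro g hg
      rw [mem_Ig, ZMod.unitsMap_self, MonoidHom.id_apply] at hg
      rw [hg, map_one, map_one]
      exact ⟨rfl, rfl⟩
    set F := ZMod.unitOfCoprime v hvN with hF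
    have hFv : ∀ l : ℕ, l ∣ N → X c l ((F.val.val : ℕ) : ZMod l) = X c l (v : ZMod l) := by
      intro l hl
      congr 1
      have h1 : ((F.val.val : ℕ) : ZMod N) = (v : ZMod N) := by
        rw [ZMod.natCast_zmod_val, hF, ZMod.coe_unitOfCoprime]
      have h2 := congrArg (ZMod.castHom hl (ZMod l)) h1
      simpa using h2
    have key := ord_dvd (O := 𝓞 E) hσ hσ' hτ hτ' (fixed_int N E) v hv (Ig N (dvd_refl N)) hI1 F
      (fun y hy => frob N E (dvd_refl N) v hv hvN F (by rw [ZMod.unitsMap_self]; rfl) y hy)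
      (orderOf F) (orderOf_pos F) (by rw [pow_orderOf_eq_one]; exact Subgroup.one_mem _) ?_
      he.ha (by rw [hNa, hNb]) ha0 M hNa hM0 hvM R.natAbs R z le_rfl hR0 hzH hzb hR
    · rw [padicValInt, ← Nat.factorization_def _ hv] at key
      exact key
    · intro heq
      apply hne
      have h1 := congrArg Multiplicative.toAdd heq
      rw [h.chi_eq, h.chp_eq, hFv p (h.dvd (mem_insert_self _ _))] at h1
      rw [← h1, psi_nat, psi_nat]
      refine sum_congr rfl fun l hl => ?_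
      rw [hFv l (h.dvd (mem_insert_of_mem hl))]

end Pool.Agent.Rcp
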