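import Pool.Agent.Rcp.Abs

/-!
# The order of `R = θ_a N_τ(c)` at a prime `v` with `χ(v) ≠ ψ(v)` is divisible by `r`
-/

set_option autoImplicit false

namespace Pool.Agent.Rcp

open Finset

variable {O : Type*} [CommRing O] {G : Type*} [CommGroup G] [MulSemiringAction G O]

theorem smul_nat (g : G) (v : ℕ) : g • (v : O) = (v : O) :=
  map_natCast (MulSemiringAction.toRingHom G O g) v

theorem smul_int (g : G) (v : ℤ) : g • (v : O) = (v : O) :=
  map_intCast (MulSemiringAction.toRingHom G O g) v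

/-- `y` divides `z` modulo `v` -/
def DM (v y z : O) : Prop := ∃ u, v ∣ z - u * y

theorem DM.refl (v y : O) : DM v y y := ⟨1, by simp⟩

theorem DM.trans {v x y z : O} (h1 : DM v x y) (h2 : DM v y z) : DM v x z := by
  obtain ⟨u, hu⟩ := h1
  obtain ⟨w, hw⟩ := h2
  refine ⟨w * u, ?_⟩
  have : z - w * u * x = (z - w * y) + w * (y - u * x) := by ring
  rw [this]
  exact dvd_add hw (hu.mul_left w)

theorem DM.mul {v x y z w : O} (h1 : DM v x y) (h2 : DM v z w) : DM v (x * z) (y * w) := by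
  obtain ⟨u, hu⟩ := h1
  obtain ⟨t, ht⟩ := h2
  refine ⟨u * t, ?_⟩
  have : y * w - u * t * (x * z) = (y - u * x) * w + u * x * (w - t * z) := by ring
  rw [this]
  exact dvd_add (hu.mul_right w) (ht.mul_left _)

theorem DM.prod {v : O} (s : Finset ℕ) (f g : ℕ → O) (h : ∀ i ∈ s, DM v (f i) (g i)) :
    DM v (∏ i ∈ s, f i) (∏ i ∈ s, g i) := by
  classical
  induction s using Finset.induction_on with
  | empty => simpa using DM.refl v 1
  | insert a s ha ih =>
    rw [prod_insert ha, prod_insert ha]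
    exact (h a (mem_insert_self _ _)).mul (ih fun i hi => h i (mem_insert_of_mem hi))

theorem DM.dvd {v y z : O} (h : DM v y z) (hy : v ∣ y) : v ∣ z := by
  obtain ⟨u, hu⟩ := h
  have : z = (z - u * y) + u * y := by ring
  rw [this]
  exact dvd_add hu (hy.mul_left u)

theorem DM.smul {v : ℕ} {y z : O} (g : G) (h : DM (v : O) y z) : DM (v : O) (g • y) (g • z) := by
  obtain ⟨u, w, hw⟩ := h
  refine ⟨g • u, g • w, ?_⟩
  have h2 := congrArg (fun t => g • t) hw
  simp only [smul_sub, smul_mul'] at h2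
  rw [h2, smul_nat]

theorem dvd_smul (g : G) (v : ℕ) (y : O) (h : (v : O) ∣ y) : (v : O) ∣ g • y := by
  obtain ⟨w, rfl⟩ := h
  exact ⟨g • w, by rw [smul_mul', smul_nat]⟩

/-- iterated Frobenius (on the elements fixed by `I`) -/
theorem frob_iter (I : Subgroup G) (v : ℕ) (F : G)
    (hF : ∀ y : O, (∀ g ∈ I, g • y = y) → (v : O) ∣ y ^ v - F • y) (k : ℕ) (y : O)
    (hy : ∀ g ∈ I, g • y = y) :
    (v : O) ∣ y ^ v ^ k - F ^ k • y := by
  induction k generalizing y with
  | zero => simp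
  | succ k ih =>
    have h1 := ih (y ^ v) (fun g hg => by rw [smul_pow', hy g hg])
    have h2 := dvd_smul (F ^ k) v _ (hF y hy)
    rw [smul_sub, smul_smul, ← pow_succ] at h2
    have : y ^ v ^ (k + 1) - F ^ (k + 1) • y =
        ((y ^ v) ^ v ^ k - F ^ k • (y ^ v)) + (F ^ k • (y ^ v) - F ^ (k + 1) • y) := by
      rw [← pow_mul, ← pow_succ']
      ring
    rw [this]
    exact dvd_add h1 h2

/-- `O / v` is reduced (on the elements fixed by `I`) -/
theorem red (I : Subgroup G) (v : ℕ) (hv : 2 ≤ v) (F : G)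
    (hF : ∀ y : O, (∀ g ∈ I, g • y = y) → (v : O) ∣ y ^ v - F • y) (f : ℕ)
    (hf : 0 < f) (hFf : F ^ f ∈ I) (y : O) (hy : ∀ g ∈ I, g • y = y) (k : ℕ)
    (h : (v : O) ∣ y ^ k) : (v : O) ∣ y := by
  have h1 : ∀ j : ℕ, (v : O) ∣ y ^ v ^ (f * j) - y := by
    intro j
    have := frob_iter I v F hF (f * j) y hy
    rwa [pow_mul F, hy _ (I.pow_mem hFf j)] at this
  have h2 : k ≤ v ^ (f * k) := by
    calc k ≤ f * k := Nat.le_mul_of_pos_left k hf
      _ ≤ v ^ (f * k) := (Nat.lt_pow_self (by omega)).le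
  have h3 : (v : O) ∣ y ^ v ^ (f * k) := h.trans (pow_dvd_pow y h2)
  have : y = y ^ v ^ (f * k) - (y ^ v ^ (f * k) - y) := by ring
  rw [this]
  exact dvd_sub h3 (h1 k)

variable {r : ℕ} (χ ψ : G →* Multiplicative (ZMod r))

/-- fixed by the common kernel -/
def Hfix (y : O) : Prop := ∀ g : G, χ g = 1 → ψ g = 1 → g • y = y

variable {χ ψ}

theorem Hfix.smul {y : O} (h : Hfix χ ψ y) (g : G) : Hfix χ ψ (g • y) := by
  intro k h1 h2
  rw [smul_smul, mul_comm, mul_smul, h k h1 h2]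

/-- the action of any `g` on a fixed element -/
theorem Hfix.act {σ τ : G} (hσ : χ σ = Multiplicative.ofAdd 1) (hσ' : ψ σ = 1)
    (hτ : χ τ = 1) (hτ' : ψ τ = Multiplicative.ofAdd 1) {y : O} (h : Hfix χ ψ y) (g : G) (i j : ℕ)
    (hi : χ g = Multiplicative.ofAdd (i : ZMod r)) (hj : ψ g = Multiplicative.ofAdd (j : ZMod r)) :
    g • y = (σ ^ i * τ ^ j) • y := by
  have e1 : χ (σ ^ i * τ ^ j) = Multiplicative.ofAdd (i : ZMod r) := by
    rw [map_mul, map_pow, map_pow, hσ, hτ, one_pow, mul_one, ← ofAdd_nsmul]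
    simp
  have e2 : ψ (σ ^ i * τ ^ j) = Multiplicative.ofAdd (j : ZMod r) := by
    rw [map_mul, map_pow, map_pow, hσ', hτ', one_pow, one_mul, ← ofAdd_nsmul]
    simp
  have h1 : (g * (σ ^ i * τ ^ j)⁻¹) • y = y := by
    apply h
    · rw [map_mul, map_inv, e1, hi, mul_inv_cancel]
    · rw [map_mul, map_inv, e2, hj, mul_inv_cancel]
  have h2 := congrArg (fun t => (σ ^ i * τ ^ j) • t) h1
  simp only [smul_smul] at h2
  rw [← h2]
  congr 1
  rw [mul_comm, mul_assoc, inv_mul_cancel, mul_one]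

theorem Hfix.pow_r {σ : G} {y : O} (h : Hfix χ ψ y) : σ ^ r • y = y := by
  apply h
  · rw [map_pow]
    apply Multiplicative.toAdd.injective
    simp
  · rw [map_pow]
    apply Multiplicative.toAdd.injective
    simp

/-- the heart: `v ∣ N_τ(c)` implies `v ∣ c` -/
theorem dvd_c [Fact r.Prime] {σ τ : G} (hσ : χ σ = Multiplicative.ofAdd 1) (hσ' : ψ σ = 1)
    (hτ : χ τ = 1) (hτ' : ψ τ = Multiplicative.ofAdd 1) (v : ℕ) (hv : 2 ≤ v)
    (I : Subgroup G) (hI : ∀ g ∈ I, χ g = 1 ∧ ψ g = 1) (F : G)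
    (hF : ∀ y : O, (∀ g ∈ I, g • y = y) → (v : O) ∣ y ^ v - F • y) (f : ℕ) (hf : 0 < f)
    (hFf : F ^ f ∈ I) (hne : χ F ≠ ψ F) {a b c : O} (hc : Hfix χ ψ c) (hcb : c * b = a * ((σ * τ) • c))
    (a' : O) (ha' : (v : O) ∣ a' * a - 1) (h : (v : O) ∣ nm r τ c) : (v : O) ∣ c := by
  classical
  have : NeZero r := ⟨(Fact.out : r.Prime).ne_zero⟩
  -- `c` divides `(στ) c` modulo `v`
  have h0 : DM (v : O) c ((σ * τ) • c) := by
    refine ⟨a' * b, ?_⟩
    have : (σ * τ) • c - a' * b * c = -((a' * a - 1) * ((σ * τ) • c)) := by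
      linear_combination (-a') * hcb
    rw [this]
    exact (ha'.mul_right _).neg_right
  have h1 : ∀ m : ℕ, DM (v : O) c ((σ * τ) ^ m • c) := by
    intro m
    induction m with
    | zero => simpa using DM.refl (v : O) c
    | succ m ih =>
      refine ih.trans ?_
      have := DM.smul ((σ * τ) ^ m) h0
      rwa [smul_smul, ← pow_succ] at this
  have h2 : ∀ m e : ℕ, DM (v : O) (τ ^ e • c) ((σ * τ) ^ m • τ ^ e • c) := by
    intro m e
    have := DM.smul (τ ^ e) (h1 m)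
    rwa [smul_smul, mul_comm, mul_smul] at this
  -- Frobenius
  obtain ⟨i, hi⟩ : ∃ i : ℕ, χ F = Multiplicative.ofAdd (i : ZMod r) :=
    ⟨(Multiplicative.toAdd (χ F)).val, by simp⟩
  obtain ⟨j0, hj0⟩ : ∃ j : ℕ, ψ F = Multiplicative.ofAdd (j : ZMod r) :=
    ⟨(Multiplicative.toAdd (ψ F)).val, by simp⟩
  obtain ⟨δ, hδ⟩ : ∃ δ : ℕ, ψ F = Multiplicative.ofAdd ((i + δ : ℕ) : ZMod r) := by
    refine ⟨(((j0 : ZMod r) - i)).val, ?_⟩
    rw [hj0]
    simp
  have hδ0 : (δ : ZMod r) ≠ 0 := by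
    intro hd
    apply hne
    rw [hi, hδ]
    push_cast
    rw [hd, add_zero]
  have hFc : ∀ y : O, Hfix χ ψ y → F • y = (σ * τ) ^ i • τ ^ δ • y := by
    intro y hy
    rw [hy.act hσ hσ' hτ hτ' F i (i + δ) hi hδ, smul_smul]
    congr 1
    rw [mul_pow, pow_add, mul_assoc]
  have hFk : ∀ k : ℕ, F ^ k • c = (σ * τ) ^ (i * k) • τ ^ (δ * k) • c := by
    intro k
    induction k with
    | zero => simp
    | succ k ih =>
      rw [pow_succ', mul_smul, ih, hFc _ ((hc.smul _).smul _)]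
      simp only [smul_smul]
      congr 1
      rw [mul_add, mul_add, pow_add, pow_add, mul_one, mul_one]
      generalize (σ * τ) ^ (i * k) = x1
      generalize (σ * τ) ^ i = x2
      generalize τ ^ (δ * k) = x3
      generalize τ ^ δ = x4
      rw [← mul_assoc x2, mul_comm (x2 * x4), mul_mul_mul_comm]
  have h3 : DM (v : O) (∏ k ∈ range r, τ ^ (δ * k) • c) (∏ k ∈ range r, F ^ k • c) := by
    refine DM.prod _ _ _ fun k _ => ?_
    rw [hFk k]
    exact h2 _ _
  have hτz : ∀ m n : ℕ, (m : ZMod r) = n → τ ^ m • c = τ ^ n • c := by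
    intro m n hmn
    have e : ∀ m : ℕ, τ ^ m • c = τ ^ (m % r) • c := by
      intro m
      conv_lhs => rw [← Nat.mod_add_div m r, pow_add, mul_smul, pow_mul]
      congr 1
      have hr1 := hc.pow_r (σ := τ)
      generalize m / r = q
      induction q with
      | zero => simp
      | succ q ih => rw [pow_succ, mul_smul, hr1, ih]
    rw [e m, e n]
    have := (ZMod.natCast_eq_natCast_iff' m n r).mp hmn
    rw [this]
  have h4 : ∏ k ∈ range r, τ ^ (δ * k) • c = nm r τ c := by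
    unfold nm
    set g : ZMod r → O := fun z => τ ^ z.val • c with hg
    have e1 : ∏ k ∈ range r, τ ^ (δ * k) • c = ∏ k ∈ range r, g ((δ : ZMod r) * (k : ZMod r)) := by
      refine prod_congr rfl fun k _ => ?_
      apply hτz
      simp
    have e2 : ∏ k ∈ range r, τ ^ k • c = ∏ k ∈ range r, g (k : ZMod r) := by
      refine prod_congr rfl fun k _ => ?_
      apply hτz
      simp
    have e3 : ∀ u : ZMod r → O, ∏ k ∈ range r, u (k : ZMod r) = ∏ z : ZMod r, u z := by
      intro u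
      refine prod_bij' (fun k _ => (k : ZMod r)) (fun z _ => z.val) (by simp) ?_ ?_ (by simp) (by simp)
      · intro z _
        exact mem_range.mpr (ZMod.val_lt z)
      · intro k hk
        exact ZMod.val_cast_of_lt (mem_range.mp hk)
    rw [e1, e2, e3 g, e3 fun z => g ((δ : ZMod r) * z)]
    exact Fintype.prod_equiv (Equiv.mulLeft₀ _ hδ0) _ _ (by simp)
  rw [h4] at h3
  have h5 := h3.dvd h
  -- the product of the `c ^ (v ^ k)`
  have h6 : (v : O) ∣ ∏ k ∈ range r, c ^ v ^ k := by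
    have : DM (v : O) (∏ k ∈ range r, F ^ k • c) (∏ k ∈ range r, c ^ v ^ k) := by
      refine DM.prod _ _ _ fun k _ => ⟨1, ?_⟩
      rw [one_mul]
      exact frob_iter I v F hF k c fun g hg => hc g (hI g hg).1 (hI g hg).2
    exact this.dvd h5
  rw [prod_pow_eq_pow_sum] at h6
  exact red I v hv F hF f hf hFf c (fun g hg => hc g (hI g hg).1 (hI g hg).2) _ h6

/-- `R = θ_a N_τ(c)` is fixed by `G` -/
theorem R_fixed [IsDomain O] [NeZero r] {σ τ : G} (hσ : χ σ = Multiplicative.ofAdd 1)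
    (hσ' : ψ σ = 1) (hτ : χ τ = 1) (hτ' : ψ τ = Multiplicative.ofAdd 1) {a b c : O}
    (ha : ∀ g : G, χ g = 1 → g • a = a) (hc : Hfix χ ψ c)
    (hcb : c * b = a * ((σ * τ) • c)) (hN : nm r σ a = nm r τ b) (ha0 : a ≠ 0)
    (hM : nm r σ a ≠ 0) (g : G) :
    g • (th r σ a * nm r τ c) = th r σ a * nm r τ c := by
  have haH : Hfix χ ψ a := fun g h _ => ha g h
  have h1 : Hfix χ ψ (th r σ a * nm r τ c) := by
    intro g hg hg'
    unfold th nm
    rw [smul_mul', smul_prod', smul_prod']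
    congr 1
    · refine prod_congr rfl fun i _ => ?_
      rw [smul_pow', smul_smul, mul_comm, mul_smul, ha g hg]
    · refine prod_congr rfl fun i _ => ?_
      rw [smul_smul, mul_comm, mul_smul, hc g hg hg']
  have h2 : σ • (th r σ a * nm r τ c) = th r σ a * nm r τ c :=
    R_sigma r σ τ a b c (ha τ hτ) haH.pow_r hc.pow_r hcb hN ha0 hM
  have h3 : τ • (th r σ a * nm r τ c) = th r σ a * nm r τ c := by
    rw [smul_mul', smul_nm r τ c hc.pow_r]
    congr 1
    unfold th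
    rw [smul_prod']
    refine prod_congr rfl fun i _ => ?_
    rw [smul_pow', smul_smul, mul_comm, mul_smul, ha τ hτ]
  obtain ⟨i, hi⟩ : ∃ i : ℕ, χ g = Multiplicative.ofAdd (i : ZMod r) :=
    ⟨(Multiplicative.toAdd (χ g)).val, by simp⟩
  obtain ⟨j, hj⟩ : ∃ j : ℕ, ψ g = Multiplicative.ofAdd (j : ZMod r) :=
    ⟨(Multiplicative.toAdd (ψ g)).val, by simp⟩
  rw [h1.act hσ hσ' hτ hτ' g i j hi hj, mul_smul, pow_smul_fixed τ _ h3, pow_smul_fixed σ _ h2]

/-- `v`-invertible elements -/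
theorem inv_prod (v : O) (s : Finset ℕ) (f : ℕ → O) (h : ∀ i ∈ s, ∃ u, v ∣ u * f i - 1) :
    ∃ u, v ∣ u * (∏ i ∈ s, f i) - 1 := by
  classical
  induction s using Finset.induction_on with
  | empty => exact ⟨1, by simp⟩
  | insert a s ha ih =>
    obtain ⟨u, hu⟩ := h a (mem_insert_self _ _)
    obtain ⟨w, hw⟩ := ih fun i hi => h i (mem_insert_of_mem hi)
    refine ⟨w * u, ?_⟩
    rw [prod_insert ha]
    have : w * u * (f a * ∏ i ∈ s, f i) - 1 =
        (u * f a - 1) * (w * ∏ i ∈ s, f i) + (w * (∏ i ∈ s, f i) - 1) := by ring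
    rw [this]
    exact dvd_add (hu.mul_right _) hw

theorem inv_pow' (v y : O) (k : ℕ) (h : ∃ u, v ∣ u * y - 1) : ∃ u, v ∣ u * y ^ k - 1 := by
  obtain ⟨u, hu⟩ := h
  refine ⟨u ^ k, ?_⟩
  rw [← mul_pow]
  have := sub_dvd_pow_sub_pow (u * y) 1 k
  rw [one_pow] at this
  exact hu.trans this

/-- order statement -/
theorem ord_dvd [IsDomain O] [CharZero O] [Fact r.Prime] {σ τ : G}
    (hσ : χ σ = Multiplicative.ofAdd 1) (hσ' : ψ σ = 1)
    (hτ : χ τ = 1) (hτ' : ψ τ = Multiplicative.ofAdd 1)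
    (hZ : ∀ y : O, (∀ g : G, g • y = y) → ∃ m : ℤ, (m : O) = y)
    (v : ℕ) (hv : v.Prime) (I : Subgroup G) (hI : ∀ g ∈ I, χ g = 1 ∧ ψ g = 1) (F : G)
    (hF : ∀ y : O, (∀ g ∈ I, g • y = y) → (v : O) ∣ y ^ v - F • y) (f : ℕ) (hf : 0 < f)
    (hFf : F ^ f ∈ I) (hne : χ F ≠ ψ F) {a b : O}
    (ha : ∀ g : G, χ g = 1 → g • a = a) (hN : nm r σ a = nm r τ b) (ha0 : a ≠ 0)
    (M : ℤ) (hM : nm r σ a = (M : O)) (hM0 : M ≠ 0) (hvM : ¬ (v : ℤ) ∣ M) :
    ∀ (k : ℕ) (R : ℤ) (c : O), R.natAbs ≤ k → R ≠ 0 → Hfix χ ψ c →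
      c * b = a * ((σ * τ) • c) → (R : O) = th r σ a * nm r τ c →
      r ∣ padicValInt v R := by
  have hr : r.Prime := Fact.out
  have : NeZero r := ⟨hr.ne_zero⟩
  have hvf : Fact v.Prime := ⟨hv⟩
  have haH : Hfix χ ψ a := fun g h _ => ha g h
  -- `a` is invertible modulo `v`
  have hinv : ∀ i, ∃ u, (v : O) ∣ u * (σ ^ i • a) - 1 := by
    intro i
    have h1 : IsCoprime (v : ℤ) M := by
      rw [Int.isCoprime_iff_gcd_eq_one]
      rw [← Int.natAbs_dvd_natAbs, Int.natAbs_natCast] at hvM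
      have := (Nat.Prime.coprime_iff_not_dvd hv).mpr hvM
      simpa [Int.gcd, Nat.Coprime] using this
    obtain ⟨x, y, hxy⟩ := h1
    have h2 : ∃ w, a * w = (M : O) := by
      rw [← hM]
      unfold nm
      obtain ⟨s, hs⟩ : ∃ s, r = s + 1 := ⟨r - 1, by have := hr.pos; omega⟩
      rw [hs, prod_range_succ']
      refine ⟨∏ k ∈ range s, σ ^ (k + 1) • a, ?_⟩
      simp [mul_comm]
    obtain ⟨w, hw⟩ := h2
    have h3 : (v : O) ∣ (y : O) * w * a - 1 := by
      have h4 := congrArg (fun t : ℤ => (t : O)) hxy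
      push_cast at h4
      refine ⟨-(x : O), ?_⟩
      linear_combination (y : O) * hw + h4
    have h5 := dvd_smul (σ ^ i) v _ h3
    rw [smul_sub, smul_mul', smul_one] at h5
    exact ⟨_, h5⟩
  obtain ⟨a', ha'⟩ := hinv 0
  rw [pow_zero, one_smul] at ha'
  obtain ⟨t', ht'⟩ : ∃ u, (v : O) ∣ u * th r σ a - 1 := by
    unfold th
    exact inv_prod _ _ _ fun i _ => inv_pow' _ _ _ (hinv i)
  have hv0 : (v : O) ≠ 0 := by exact_mod_cast hv.ne_zero
  intro k
  induction k with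
  | zero =>
    intro R c hk hR
    exact absurd (Int.natAbs_eq_zero.mp (by omega)) hR
  | succ k ih =>
    intro R c hk hR hc hcb hRc
    by_cases hvR : (v : ℤ) ∣ R
    · -- `v ∣ c`
      have h1 : (v : O) ∣ nm r τ c := by
        obtain ⟨s, hs⟩ := hvR
        have h2 : (v : O) ∣ th r σ a * nm r τ c := by
          rw [← hRc, hs]
          push_cast
          exact dvd_mul_right _ _
        have h3 : nm r τ c = t' * (th r σ a * nm r τ c) - (t' * th r σ a - 1) * nm r τ c := by ring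
        rw [h3]
        exact dvd_sub (h2.mul_left _) (ht'.mul_right _)
      have h4 := dvd_c hσ hσ' hτ hτ' v hv.two_le I hI F hF f hf hFf hne hc hcb a' ha' h1
      obtain ⟨c1, rfl⟩ := h4
      have hc1 : Hfix χ ψ c1 := by
        intro g hg hg'
        have := hc g hg hg'
        rw [smul_mul', smul_nat] at this
        exact mul_left_cancel₀ hv0 this
      have hcb1 : c1 * b = a * ((σ * τ) • c1) := by
        rw [smul_mul', smul_nat] at hcb
        apply mul_left_cancel₀ hv0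
        linear_combination hcb
      have hnm : nm r τ ((v : O) * c1) = (v : O) ^ r * nm r τ c1 := by
        rw [nm_mul, nm_fixed r τ (v : O) (smul_nat _ _)]
      obtain ⟨R1, hR1⟩ := hZ _ (R_fixed hσ hσ' hτ hτ' ha hc1 hcb1 hN ha0 (by rw [hM]; exact_mod_cast hM0))
      have hRR : R = (v : ℤ) ^ r * R1 := by
        have : (R : O) = (((v : ℤ) ^ r * R1 : ℤ) : O) := by
          push_cast
          rw [hRc, hnm, hR1]
          ring
        exact_mod_cast this
      have hR10 : R1 ≠ 0 := by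
        rintro rfl
        exact hR (by rw [hRR, mul_zero])
      have hlt : R1.natAbs ≤ k := by
        have : R1.natAbs < R.natAbs := by
          rw [hRR, Int.natAbs_mul, Int.natAbs_pow, Int.natAbs_natCast]
          have h5 : 1 < v ^ r := Nat.one_lt_pow hr.ne_zero hv.one_lt
          have h6 : 0 < R1.natAbs := Int.natAbs_pos.mpr hR10
          nlinarith
        omega
      have h7 := ih R1 c1 hlt hR10 hc1 hcb1 hR1
      rw [hRR, padicValInt.mul (pow_ne_zero _ (by exact_mod_cast hv.ne_zero)) hR10]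
      have h8 : padicValInt v ((v : ℤ) ^ r) = r := by
        rw [padicValInt, Int.natAbs_pow, Int.natAbs_natCast, padicValNat.prime_pow]
      rw [h8]
      exact dvd_add (dvd_refl _) h7
    · rw [padicValInt.eq_zero_of_not_dvd hvR]
      exact dvd_zero _

end Pool.Agent.Rcp
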