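import Pool.Agent.Rcp.Main

/-!
# Reciprocity in `𝓞 ℚ(ζ_N)`: final form
-/

set_option autoImplicit false

namespace Pool.Agent.Rcp

open Finset Pool.Agent.Rnr NumberField IsCyclotomicExtension IsCyclotomicExtension.Rat

variable {r : ℕ} {c : Chars r} {N : ℕ} [NeZero N] {S : Finset ℕ} {f : ℕ → ZMod r} {p : ℕ}
  (h : Dat c N S f p) (E : Type*) [Field E] [NumberField E] [IsCyclotomicExtension {N} ℚ E]

attribute [local instance] act

theorem Hfix.congr {O : Type*} [CommRing O] {G : Type*} [CommGroup G] [MulSemiringAction G O]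
    {χ ψ : G →* Multiplicative (ZMod r)} {y : O} (hy : Hfix χ ψ y) (g g' : G) (h1 : χ g = χ g')
    (h2 : ψ g = ψ g') : g • y = g' • y := by
  have := hy (g'⁻¹ * g) (by rw [map_mul, map_inv, h1, inv_mul_cancel])
    (by rw [map_mul, map_inv, h2, inv_mul_cancel])
  have h3 := congrArg (fun t => g' • t) this
  simpa [smul_smul] using h3

include h in
/-- inertia acts trivially modulo `I` -/
theorem inert {q : ℕ} (hq : q ∈ insert p S) (I : Ideal (𝓞 E)) [I.IsMaximal]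
    (hqI : (q : 𝓞 E) ∈ I) (g : (ZMod N)ˣ) (hg : g ∈ Ig N (h.div_dvd hq)) (y : 𝓞 E) :
    g • y - y ∈ I := by
  have hqp : Fact q.Prime := ⟨h.prime_of_mem hq⟩
  let _ : Field (𝓞 E ⧸ I) := Ideal.Quotient.field I
  have hchar : CharP (𝓞 E ⧸ I) q := by
    refine (CharP.charP_iff_prime_eq_zero hqp.out).mpr ?_
    rw [← map_natCast (Ideal.Quotient.mk I)]
    exact Ideal.Quotient.eq_zero_iff_mem.mpr hqI
  have h1 := Phi_inv N E (h.div_dvd hq) q (Ideal.Quotient.mk I) (h.mul_div hq) g hg y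
  rw [← sub_eq_zero, ← map_sub, Ideal.Quotient.eq_zero_iff_mem] at h1
  exact h1

include h in
/-- `N_g(y) = y ^ r` modulo `I` for `g` in the inertia group -/
theorem nm_inert {q : ℕ} (hq : q ∈ insert p S) (I : Ideal (𝓞 E)) [I.IsMaximal]
    (hqI : (q : 𝓞 E) ∈ I) (g : (ZMod N)ˣ) (hg : g ∈ Ig N (h.div_dvd hq)) (y : 𝓞 E) (u : ℤ)
    (hu : y - (u : 𝓞 E) ∈ I) : nm r g y - (u : 𝓞 E) ^ r ∈ I := by
  unfold nm
  have h1 := prod_sub_mem I (range r) (fun i => g ^ i • y) (fun _ => (u : 𝓞 E)) (fun i _ => by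
    have h2 := inert h E hq I hqI (g ^ i) (Subgroup.pow_mem _ hg i) y
    have h3 := I.add_mem h2 hu
    simpa using h3)
  simpa using h1

include h in
/-- values modulo `I` -/
theorem int_mod {q : ℕ} (hq : q ∈ insert p S) (I : Ideal (𝓞 E)) [I.IsMaximal]
    (hqI : (q : 𝓞 E) ∈ I) (y : 𝓞 E) (hy : Hfix (chi c N S f) (chp c N p) y) :
    ∃ u : ℤ, y - (u : 𝓞 E) ∈ I := by
  have hqp : Fact q.Prime := ⟨h.prime_of_mem hq⟩
  obtain ⟨P, hP, hP1, hP2⟩ := h.ex_P c hq
  obtain ⟨u, hu⟩ := loc_int N E (h.div_dvd hq) (h.mul_div hq) (h.coprime hq) I hqI P hP hP1 hP2 y hy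
  exact ⟨(u.val : ℤ), by simpa using hu⟩

theorem unit_of_prod {q : ℕ} [hq : Fact q.Prime] (r : ℕ) (α : ℕ → ℤ) (M : ℤ)
    (hM : ¬ (q : ℤ) ∣ M) (h : ((∏ i ∈ range r, α i : ℤ) : ZMod q) = M) (i : ℕ) (hi : i < r) :
    IsUnit ((α i : ℤ) : ZMod q) := by
  rw [isUnit_iff_ne_zero]
  intro h0
  have h1 : ((∏ i ∈ range r, α i : ℤ) : ZMod q) = 0 := by
    push_cast
    exact prod_eq_zero (mem_range.mpr hi) h0
  rw [h] at h1
  exact hM ((ZMod.intCast_zmod_eq_zero_iff_dvd M q).mp h1)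

include h in
/-- RECIPROCITY -/
theorem recip (M : ℤ) (a b : 𝓞 E) (he : Elt (c := c) (N := N) (S := S) (f := f) (p := p) E M a b)
    (hM0 : M ≠ 0)
    (I : ℕ → Ideal (𝓞 E)) (hI : ∀ q ∈ insert p S, (I q).IsMaximal)
    (hqI : ∀ q ∈ insert p S, (q : 𝓞 E) ∈ I q)
    (α : ℕ → ℤ) (β : ℕ → ℕ → ℤ)
    (hα : ∀ g : (ZMod N)ˣ, chi c N S f g = Multiplicative.ofAdd 1 → ∀ i < r,
      g ^ i • a - (α i : 𝓞 E) ∈ I p)
    (hβ : ∀ l ∈ S, ∀ g : (ZMod N)ˣ, chp c N p g = Multiplicative.ofAdd 1 → ∀ i < r,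
      g ^ i • b - (β l i : 𝓞 E) ∈ I l) :
    ∑ i ∈ range r, (i : ZMod r) * X c p ((α i : ℤ) : ZMod p) +
      ∑ l ∈ S, f l * ∑ i ∈ range r, (i : ZMod r) * X c l ((β l i : ℤ) : ZMod l) = 0 := by
  have hrf : Fact r.Prime := ⟨h.hr⟩
  obtain ⟨l0, hl0⟩ := h.hne
  obtain ⟨σ, hσI, hσ, hσ'⟩ := h.ex_s c hl0
  obtain ⟨τ, hτI, hτ, hτ'⟩ := h.ex_t c
  obtain ⟨R, z, hz, hzI, hR1, hR2, hR3⟩ := main_R h E M a b he hM0 I hI hqI σ τ hσ hσ' hτ hτ'
  have hqM : ∀ q ∈ insert p S, ¬ (q : ℤ) ∣ M := by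
    intro q hq hd
    obtain ⟨h1, h2, _⟩ := he.hM q (h.prime_of_mem hq) hd
    rcases mem_insert.mp hq with rfl | h3
    · exact h2 rfl
    · exact h1 h3
  have haH : Hfix (chi c N S f) (chp c N p) a := fun g h1 _ => he.ha g h1
  have hr0 : ((r : ℕ) : ZMod r) = 0 := ZMod.natCast_self r
  -- at p
  have hpI : p ∈ insert p S := mem_insert_self _ _
  have hp : IsUnit (R : ZMod p) ∧
      X c p (R : ZMod p) = ∑ i ∈ range r, (i : ZMod r) * X c p ((α i : ℤ) : ZMod p) := by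
    have hqp : Fact p.Prime := ⟨h.hp⟩
    have hImax : (I p).IsMaximal := hI p hpI
    obtain ⟨u, hu⟩ := int_mod h E hpI (I p) (hqI p hpI) z hz
    have h1 := nm_inert h E hpI (I p) (hqI p hpI) τ hτI z u hu
    have h2 : th r σ a - ((∏ i ∈ range r, α i ^ i : ℤ) : 𝓞 E) ∈ I p := by
      unfold th
      push_cast
      exact prod_sub_mem _ _ _ _ fun i hi => pow_sub_mem _ _ _ _ (hα σ hσ i (mem_range.mp hi))
    have h3 : (R : 𝓞 E) - (((∏ i ∈ range r, α i ^ i) * u ^ r : ℤ) : 𝓞 E) ∈ I p := by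
      rw [hR1]
      push_cast
      have : th r σ a * nm r τ z - (∏ i ∈ range r, (α i : 𝓞 E) ^ i) * (u : 𝓞 E) ^ r =
          (th r σ a - ∏ i ∈ range r, (α i : 𝓞 E) ^ i) * nm r τ z +
          (∏ i ∈ range r, (α i : 𝓞 E) ^ i) * (nm r τ z - (u : 𝓞 E) ^ r) := by ring
      rw [this]
      push_cast at h2
      exact (I p).add_mem ((I p).mul_mem_right _ h2) ((I p).mul_mem_left _ h1)
    have h4 := cast_eq_of_mem E (I p) (hqI p hpI) _ _ h3
    have hu0 : IsUnit ((u : ℤ) : ZMod p) := by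
      rw [isUnit_iff_ne_zero]
      intro h0
      apply hzI p hpI
      obtain ⟨t, ht⟩ := (ZMod.intCast_zmod_eq_zero_iff_dvd u p).mp h0
      have : z = (z - (u : 𝓞 E)) + (u : 𝓞 E) := by ring
      rw [this]
      refine (I p).add_mem hu ?_
      rw [ht]
      push_cast
      exact (I p).mul_mem_right _ (hqI p hpI)
    have h5 : ((∏ i ∈ range r, α i : ℤ) : ZMod p) = M := by
      apply cast_eq_of_mem E (I p) (hqI p hpI)
      rw [← he.ha1 σ hσ]
      have := prod_sub_mem (I p) (range r) (fun i => σ ^ i • a) (fun i => (α i : 𝓞 E))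
        fun i hi => hα σ hσ i (mem_range.mp hi)
      push_cast
      rw [← neg_sub]
      exact (I p).neg_mem this
    have hαu : ∀ i ∈ range r, IsUnit ((α i : ℤ) : ZMod p) := fun i hi =>
      unit_of_prod r α M (hqM p hpI) h5 i (mem_range.mp hi)
    have h6 : (R : ZMod p) = (∏ i ∈ range r, ((α i : ℤ) : ZMod p) ^ i) * (u : ZMod p) ^ r := by
      rw [h4]
      push_cast
      rfl
    have hpu : IsUnit (∏ i ∈ range r, ((α i : ℤ) : ZMod p) ^ i) := by
      rw [isUnit_iff_ne_zero, prod_ne_zero_iff]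
      intro i hi
      exact pow_ne_zero _ (hαu i hi).ne_zero
    refine ⟨by rw [h6]; exact hpu.mul (hu0.pow r), ?_⟩
    rw [h6, X_mul c p _ _ hpu (hu0.pow r), X_pow c p _ hu0, hr0, zero_mul, add_zero,
      X_prod c p _ _ fun i hi => (hαu i hi).pow i]
    refine sum_congr rfl fun i hi => ?_
    rw [X_pow c p _ (hαu i hi)]
  -- at l
  have hl : ∀ l ∈ S, IsUnit (R : ZMod l) ∧
      X c l (R : ZMod l) + ∑ i ∈ range r, (i : ZMod r) * X c l ((β l i : ℤ) : ZMod l) = 0 := by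
    intro l hlS
    have hlI : l ∈ insert p S := mem_insert_of_mem hlS
    have hqp : Fact l.Prime := ⟨h.hS l hlS⟩
    have hImax : (I l).IsMaximal := hI l hlI
    obtain ⟨s, hsI, hs, hs'⟩ := h.ex_s c hlS
    obtain ⟨u, hu⟩ := int_mod h E hlI (I l) (hqI l hlI) z hz
    obtain ⟨w, hw⟩ := int_mod h E hlI (I l) (hqI l hlI) a haH
    have hnz : nm r σ z = nm r s z := by
      unfold nm
      refine prod_congr rfl fun i _ => ?_
      apply hz.congr
      · rw [map_pow, map_pow, hσ, hs]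
      · rw [map_pow, map_pow, hσ', hs']
    have h1 := nm_inert h E hlI (I l) (hqI l hlI) s hsI z u hu
    have h1' := nm_inert h E hlI (I l) (hqI l hlI) s hsI a w hw
    rw [he.ha1 s hs] at h1'
    have hMw : (M : ZMod l) = ((w ^ r : ℤ) : ZMod l) := by
      apply cast_eq_of_mem E (I l) (hqI l hlI)
      push_cast
      exact h1'
    have h2 : th r τ b - ((∏ i ∈ range r, β l i ^ i : ℤ) : 𝓞 E) ∈ I l := by
      unfold th
      push_cast
      exact prod_sub_mem _ _ _ _ fun i hi => pow_sub_mem _ _ _ _ (hβ l hlS τ hτ' i (mem_range.mp hi))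
    have h3 : (((∏ i ∈ range r, β l i ^ i) * R : ℤ) : 𝓞 E) - ((M ^ (r - 1) * u ^ r : ℤ) : 𝓞 E) ∈ I l := by
      rw [hnz] at hR2
      push_cast
      have : (∏ i ∈ range r, (β l i : 𝓞 E) ^ i) * (R : 𝓞 E) - (M : 𝓞 E) ^ (r - 1) * (u : 𝓞 E) ^ r =
          (M : 𝓞 E) ^ (r - 1) * (nm r s z - (u : 𝓞 E) ^ r) -
          (th r τ b - ∏ i ∈ range r, (β l i : 𝓞 E) ^ i) * (R : 𝓞 E) := by
        linear_combination hR2
      rw [this]
      push_cast at h2
      exact (I l).sub_mem ((I l).mul_mem_left _ h1) ((I l).mul_mem_right _ h2)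
    have h4 := cast_eq_of_mem E (I l) (hqI l hlI) _ _ h3
    have hu0 : IsUnit ((u : ℤ) : ZMod l) := by
      rw [isUnit_iff_ne_zero]
      intro h0
      apply hzI l hlI
      obtain ⟨t, ht⟩ := (ZMod.intCast_zmod_eq_zero_iff_dvd u l).mp h0
      have : z = (z - (u : 𝓞 E)) + (u : 𝓞 E) := by ring
      rw [this]
      refine (I l).add_mem hu ?_
      rw [ht]
      push_cast
      exact (I l).mul_mem_right _ (hqI l hlI)
    have h5 : ((∏ i ∈ range r, β l i : ℤ) : ZMod l) = M := by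
      apply cast_eq_of_mem E (I l) (hqI l hlI)
      rw [← he.hb1 τ hτ']
      have := prod_sub_mem (I l) (range r) (fun i => τ ^ i • b) (fun i => (β l i : 𝓞 E))
        fun i hi => hβ l hlS τ hτ' i (mem_range.mp hi)
      push_cast
      rw [← neg_sub]
      exact (I l).neg_mem this
    have hβu : ∀ i ∈ range r, IsUnit ((β l i : ℤ) : ZMod l) := fun i hi =>
      unit_of_prod r (β l) M (hqM l hlI) h5 i (mem_range.mp hi)
    have hMu : IsUnit (M : ZMod l) := by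
      rw [isUnit_iff_ne_zero]
      intro h0
      exact hqM l hlI ((ZMod.intCast_zmod_eq_zero_iff_dvd M l).mp h0)
    have hwu : IsUnit (w : ZMod l) := by
      rw [hMw] at hMu
      push_cast at hMu
      exact (isUnit_pow_iff h.hr.ne_zero).mp hMu
    have hXM : X c l (M : ZMod l) = 0 := by
      rw [hMw]
      push_cast
      rw [X_pow c l _ hwu, hr0, zero_mul]
    push_cast at h4
    have hpu : IsUnit (∏ i ∈ range r, ((β l i : ℤ) : ZMod l) ^ i) := by
      rw [isUnit_iff_ne_zero, prod_ne_zero_iff]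
      intro i hi
      exact pow_ne_zero _ (hβu i hi).ne_zero
    have hRu : IsUnit (R : ZMod l) := by
      have : IsUnit ((∏ i ∈ range r, ((β l i : ℤ) : ZMod l) ^ i) * (R : ZMod l)) := by
        rw [h4]
        exact (hMu.pow _).mul (hu0.pow _)
      exact (IsUnit.mul_iff.mp this).2
    refine ⟨hRu, ?_⟩
    have h7 := congrArg (X c l) h4
    rw [X_mul c l _ _ hpu hRu, X_mul c l _ _ (hMu.pow _) (hu0.pow _), X_pow c l _ hMu,
      X_pow c l _ hu0, hXM, hr0, X_prod c l _ _ fun i hi => (hβu i hi).pow i] at h7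
    have h8 : ∑ i ∈ range r, X c l (((β l i : ℤ) : ZMod l) ^ i) =
        ∑ i ∈ range r, (i : ZMod r) * X c l ((β l i : ℤ) : ZMod l) := by
      refine sum_congr rfl fun i hi => ?_
      rw [X_pow c l _ (hβu i hi)]
    rw [h8] at h7
    rw [add_comm, h7]
    ring
  -- the Dirichlet character
  have hqR : ∀ q ∈ insert p S, IsUnit (R : ZMod q) := by
    intro q hq
    rcases mem_insert.mp hq with rfl | h3
    · exact hp.1
    · exact (hl q h3).1
  have hRne : R ≠ 0 := by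
    rintro rfl
    have hqp : Fact p.Prime := ⟨h.hp⟩
    have := hp.1
    rw [Int.cast_zero] at this
    exact not_isUnit_zero this
  have hvu : ∀ v : ℕ, v ∣ R.natAbs → ∀ q ∈ insert p S, IsUnit (v : ZMod q) := by
    intro v hd q hq
    have h1 := hqR q hq
    obtain ⟨t, ht⟩ := Int.natCast_dvd.mpr hd
    rw [ht] at h1
    push_cast at h1
    exact (IsUnit.mul_iff.mp h1).1
  have hdir := dir_zero c S f p R.natAbs (Int.natAbs_ne_zero.mpr hRne)
    (fun v hv hd => ⟨hvu v hd p hpI, fun l hl' => hvu v hd l (mem_insert_of_mem hl')⟩)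
    (fun v hv hd hne => hR3 v hv (fun hmem => by
      have hqp : Fact v.Prime := ⟨hv⟩
      have := hvu v hd v hmem
      rw [ZMod.natCast_self] at this
      exact not_isUnit_zero this) hne hRne)
  rw [← X_natAbs c h.hr h.hr2 p R hp.1, hp.2, psi_nat] at hdir
  rw [hdir, ← sum_add_distrib]
  apply sum_eq_zero
  intro l hlS
  rw [← X_natAbs c h.hr h.hr2 l R (hl l hlS).1, ← mul_add, (hl l hlS).2, mul_zero]

end Pool.Agent.Rcp
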