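import Pool.Agent.Rcp.Cyc

/-!
# Ring homomorphisms of `𝓞 ℚ(ζ_N)` to fields of characteristic `q ∣ N`
-/

set_option autoImplicit false

namespace Pool.Agent.Rcp

open Finset NumberField IsCyclotomicExtension IsCyclotomicExtension.Rat

variable (N : ℕ) [NeZero N] (E : Type*) [Field E] [NumberField E]
  [IsCyclotomicExtension {N} ℚ E]

attribute [local instance] act

variable {m : ℕ} (hm : m ∣ N) {k : Type*} [Field k] (q : ℕ) [Fact q.Prime] [CharP k q]
  (Φ : 𝓞 E →+* k)

/-- `N = q m` -/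
theorem Phi_zt_pow (hN : N = q * m) : Φ (zt N E) ^ m = 1 := by
  have h1 : (Φ (zt N E) ^ m) ^ q = 1 := by
    rw [← pow_mul, ← map_pow, mul_comm, ← hN, (zt_prim N E).pow_eq_one, map_one]
  have h2 : (Φ (zt N E) ^ m - 1) ^ q = 0 := by
    rw [sub_pow_char, h1, one_pow, sub_self]
  exact sub_eq_zero.mp (pow_eq_zero_iff (Fact.out : q.Prime).ne_zero |>.mp h2)

theorem Phi_zt_congr (hN : N = q * m) (a b : ℕ) (hab : (a : ZMod m) = b) :
    Φ (zt N E) ^ a = Φ (zt N E) ^ b := by
  rw [ZMod.natCast_eq_natCast_iff'] at hab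
  have h := Phi_zt_pow N E q Φ hN
  rw [← Nat.mod_add_div a m, ← Nat.mod_add_div b m, hab, pow_add, pow_add, pow_mul, pow_mul, h,
    one_pow, one_pow]

/-- `Φ` is invariant under the `g = 1 mod m` -/
theorem Phi_inv (hN : N = q * m) (g : (ZMod N)ˣ) (hg : g ∈ Ig N hm) (y : 𝓞 E) :
    Φ (g • y) = Φ y := by
  have h : Φ.comp (MulSemiringAction.toRingHom (ZMod N)ˣ (𝓞 E) g) = Φ := by
    apply ringHom_ext N E
    rw [RingHom.comp_apply]
    show Φ (g • zt N E) = _
    rw [smul_zt_pow N E g _ (zt_prim N E).pow_eq_one, map_pow]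
    conv_rhs => rw [← pow_one (Φ (zt N E))]
    apply Phi_zt_congr N E q Φ hN
    rw [mem_Ig] at hg
    have := congrArg (fun u : (ZMod m)ˣ => (u : ZMod m)) hg
    simp only [ZMod.unitsMap_def, Units.coe_map, MonoidHom.coe_coe, ZMod.castHom_apply,
      Units.val_one] at this
    rw [Nat.cast_one, ← this, ZMod.natCast_val]
  exact congrArg (fun f : 𝓞 E →+* k => f y) h

/-- Frobenius at `q` -/
theorem Phi_frob (hN : N = q * m) (hqm : q.Coprime m) (P : (ZMod N)ˣ)
    (hP : ZMod.unitsMap hm P = ZMod.unitOfCoprime q hqm) (y : 𝓞 E) :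
    Φ (P • y) = Φ y ^ q := by
  have h : Φ.comp (MulSemiringAction.toRingHom (ZMod N)ˣ (𝓞 E) P) = (frobenius k q).comp Φ := by
    apply ringHom_ext N E
    rw [RingHom.comp_apply, RingHom.comp_apply, frobenius_def]
    show Φ (P • zt N E) = _
    rw [smul_zt_pow N E P _ (zt_prim N E).pow_eq_one, map_pow]
    apply Phi_zt_congr N E q Φ hN
    have := congrArg (fun u : (ZMod m)ˣ => (u : ZMod m)) hP
    simp only [ZMod.unitsMap_def, Units.coe_map, MonoidHom.coe_coe, ZMod.castHom_apply,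
        ZMod.coe_unitOfCoprime] at this
    rw [← this, ZMod.natCast_val]
  have := congrArg (fun f : 𝓞 E →+* k => f y) h
  simpa [frobenius_def] using this

/-- elements `x` with `x ^ q = x` come from `ZMod q` -/
theorem mem_prime (x : k) (hx : x ^ q = x) : ∃ u : ZMod q, ZMod.castHom (dvd_refl q) k u = x := by
  let _ : Algebra (ZMod q) k := ZMod.algebra k q
  have h1 : x ∈ (⊥ : Subfield k) := (Subfield.mem_bot_iff_pow_eq_self (F := k) (p := q)).mpr hx
  obtain ⟨n, hn⟩ := (mem_bot_iff_intCast q k).mp h1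
  exact ⟨(n : ZMod q), by simp [hn]⟩

include hm in
/-- `Φ(ζ_m)` is a primitive `m`-th root of unity -/
theorem Phi_prim (hqm : q.Coprime m) : IsPrimitiveRoot (Φ (zt N E ^ (N / m))) m := by
  have hm0 : NeZero m := ⟨fun h => NeZero.ne N (by subst h; exact Nat.eq_zero_of_zero_dvd hm)⟩
  have h1 : IsPrimitiveRoot (zt N E ^ (N / m)) m :=
    (zt_prim N E).pow (NeZero.pos N) (Nat.div_mul_cancel hm).symm
  have h2 : (Polynomial.cyclotomic m (𝓞 E)).IsRoot (zt N E ^ (N / m)) := h1.isRoot_cyclotomic (NeZero.pos m)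
  have h3 : (Polynomial.cyclotomic m k).IsRoot (Φ (zt N E ^ (N / m))) := by
    rw [← Polynomial.map_cyclotomic m Φ]
    exact h2.map
  have hmk : NeZero (m : k) := by
    refine ⟨fun h => ?_⟩
    rw [CharP.cast_eq_zero_iff k q] at h
    have := Nat.Prime.coprime_iff_not_dvd (Fact.out : q.Prime) |>.mp hqm
    exact this h
  exact Polynomial.isRoot_cyclotomic_iff.mp h3

omit [CharP k q] in
theorem geom (w : k) (m : ℕ) (hw : IsPrimitiveRoot w m) (b : ℕ) (hb : w ^ b ≠ 1) :
    ∑ j ∈ range m, w ^ (b * j) = 0 := by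
  have h1 : (w ^ b) ^ m = 1 := by rw [← pow_mul, mul_comm, pow_mul, hw.pow_eq_one, one_pow]
  have h2 := mul_geom_sum (w ^ b) m
  rw [h1, sub_self, mul_eq_zero] at h2
  rcases h2 with h2 | h2
  · exact absurd (sub_eq_zero.mp h2) hb
  · simpa [← pow_mul] using h2

/-- Separation: if `λ` is trivial on the `g = 1 mod m` and `λ g ≠ 1`, some element fixed by the
kernel of `λ` is moved by `g` modulo the kernel of `Φ`. -/
theorem sep (hqm : q.Coprime m) {A : Type*} [CommGroup A] (lam : (ZMod N)ˣ →* A)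
    (hl : ∀ g ∈ Ig N hm, lam g = 1) (g : (ZMod N)ˣ) (hg : lam g ≠ 1) :
    ∃ x : 𝓞 E, (∀ h : (ZMod N)ˣ, lam h = 1 → h • x = x) ∧ Φ (g • x) ≠ Φ x := by
  classical
  have hm0 : NeZero m := ⟨fun h => NeZero.ne N (by subst h; exact Nat.eq_zero_of_zero_dvd hm)⟩
  set w : 𝓞 E := zt N E ^ (N / m) with hw
  have hwm : w ^ m = 1 := by
    rw [hw, ← pow_mul, Nat.div_mul_cancel hm, (zt_prim N E).pow_eq_one]
  have hwN : w ^ N = 1 := by
    obtain ⟨t, ht⟩ := hm
    rw [ht, pow_mul, hwm, one_pow]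
  have hprim := Phi_prim N E hm q Φ hqm
  rw [← hw] at hprim
  have hcongr : ∀ a b : ℕ, (a : ZMod m) = b → w ^ a = w ^ b := by
    intro a b hab
    rw [ZMod.natCast_eq_natCast_iff'] at hab
    rw [← Nat.mod_add_div a m, ← Nat.mod_add_div b m, hab, pow_add, pow_add, pow_mul, pow_mul, hwm,
      one_pow, one_pow]
  -- the set of residues
  set T : Finset (ZMod m)ˣ := univ.filter fun u => ∃ h : (ZMod N)ˣ, lam h = 1 ∧ ZMod.unitsMap hm h = u
    with hT
  have hTmul : ∀ h : (ZMod N)ˣ, lam h = 1 → ∀ u, (ZMod.unitsMap hm h * u ∈ T ↔ u ∈ T) := by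
    intro h hh u
    simp only [hT, mem_filter, mem_univ, true_and]
    constructor
    · rintro ⟨h', h1, h2⟩
      exact ⟨h⁻¹ * h', by rw [map_mul, map_inv, hh, h1]; simp, by rw [map_mul, map_inv, h2]; simp⟩
    · rintro ⟨h', h1, h2⟩
      exact ⟨h * h', by rw [map_mul, hh, h1, one_mul], by rw [map_mul, h2]⟩
  set X : ℕ → 𝓞 E := fun j => ∑ u ∈ T, w ^ (j * (u : ZMod m).val) with hX
  have hact : ∀ (h : (ZMod N)ˣ) (j : ℕ), h • X j =
      ∑ u ∈ T, w ^ (j * ((ZMod.unitsMap hm h * u : (ZMod m)ˣ) : ZMod m).val) := by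
    intro h j
    rw [hX]
    simp only
    rw [smul_sum]
    refine sum_congr rfl fun u _ => ?_
    rw [smul_zt_pow N E h _ (by rw [← pow_mul, mul_comm, pow_mul, hwN, one_pow]), ← pow_mul]
    apply hcongr
    have e : ((h : ZMod N).val : ZMod m) = ((ZMod.unitsMap hm h : (ZMod m)ˣ) : ZMod m) := by
      rw [ZMod.unitsMap_def, Units.coe_map, MonoidHom.coe_coe, ZMod.castHom_apply, ZMod.natCast_val]
    have e2 : ∀ z : ZMod m, ((z.val : ℕ) : ZMod m) = z := fun z => ZMod.natCast_zmod_val z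
    rw [Nat.cast_mul, Nat.cast_mul, Nat.cast_mul, e, e2, e2, Units.val_mul]
    ring
  have hfix : ∀ (j : ℕ) (h : (ZMod N)ˣ), lam h = 1 → h • X j = X j := by
    intro j h hh
    rw [hact]
    refine sum_bij' (fun u _ => ZMod.unitsMap hm h * u) (fun u _ => (ZMod.unitsMap hm h)⁻¹ * u)
      ?_ ?_ ?_ ?_ ?_
    · intro u hu
      exact (hTmul h hh u).mpr hu
    · intro u hu
      rw [← hTmul h hh]
      simpa using hu
    · intro u _
      simp
    · intro u _
      simp
    · intro u _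
      rfl
  by_contra hcon
  push Not at hcon
  have hall : ∀ j, Φ (g • X j) = Φ (X j) := fun j => hcon _ (hfix j)
  -- orthogonality
  set W : k := Φ w with hW
  have hsum : ∀ u : (ZMod m)ˣ, ∑ j ∈ range m, W ^ ((m - 1) * j) * W ^ (j * (u : ZMod m).val) =
      if u = 1 then (m : k) else 0 := by
    intro u
    have e1 : ∀ j, W ^ ((m - 1) * j) * W ^ (j * (u : ZMod m).val) =
        W ^ (((m - 1) + (u : ZMod m).val) * j) := by
      intro j
      rw [← pow_add]
      congr 1
      ring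
    simp only [e1]
    have e2 : ((((m - 1) + (u : ZMod m).val : ℕ)) : ZMod m) = (u : ZMod m) - 1 := by
      rw [Nat.cast_add, Nat.cast_sub (NeZero.pos m), ZMod.natCast_self, ZMod.natCast_zmod_val]
      push_cast
      ring
    by_cases hu : u = 1
    · rw [if_pos hu]
      have e3 : W ^ ((m - 1) + (u : ZMod m).val) = 1 := by
        rw [hprim.pow_eq_one_iff_dvd, ← ZMod.natCast_eq_zero_iff, e2, hu, Units.val_one, sub_self]
      simp only [pow_mul, e3, one_pow, sum_const, card_range, nsmul_eq_mul, mul_one]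
    · rw [if_neg hu]
      apply geom W m hprim
      intro h1
      rw [hprim.pow_eq_one_iff_dvd, ← ZMod.natCast_eq_zero_iff, e2, sub_eq_zero] at h1
      exact hu (Units.ext (by rw [h1, Units.val_one]))
  -- the two sums
  have h1 : ∑ j ∈ range m, W ^ ((m - 1) * j) * Φ (X j) = (m : k) := by
    have e1 : ∀ j, Φ (X j) = ∑ u ∈ T, W ^ (j * (u : ZMod m).val) := by
      intro j
      rw [hX, map_sum]
      simp only [map_pow, hW]
    simp only [e1, mul_sum]
    rw [sum_comm]
    simp only [hsum]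
    rw [sum_ite_eq' T 1 fun _ => (m : k), if_pos]
    simp only [hT, mem_filter, mem_univ, true_and]
    exact ⟨1, map_one _, map_one _⟩
  have h2 : ∑ j ∈ range m, W ^ ((m - 1) * j) * Φ (g • X j) = 0 := by
    have e1 : ∀ j, Φ (g • X j) =
        ∑ u ∈ T, W ^ (j * ((ZMod.unitsMap hm g * u : (ZMod m)ˣ) : ZMod m).val) := by
      intro j
      rw [hact, map_sum]
      simp only [map_pow, hW]
    simp only [e1, mul_sum]
    rw [sum_comm]
    simp only [hsum]
    apply sum_eq_zero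
    intro u hu
    rw [if_neg]
    intro h3
    simp only [hT, mem_filter, mem_univ, true_and] at hu
    obtain ⟨h, hh1, hh2⟩ := hu
    have h4 : lam (g * h) = 1 := hl _ (by rw [mem_Ig, map_mul, hh2, h3])
    rw [map_mul, hh1, mul_one] at h4
    exact hg h4
  simp only [hall] at h2
  rw [h1, CharP.cast_eq_zero_iff k q] at h2
  exact (Nat.Prime.coprime_iff_not_dvd (Fact.out : q.Prime)).mp hqm h2

end Pool.Agent.Rcp
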