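import Pool.Agent.Rcp.Res

/-!
# Choice of `x`: the Hilbert 90 element does not vanish at the primes dividing `N`
-/

set_option autoImplicit false

namespace Pool.Agent.Rcp

open Finset NumberField IsCyclotomicExtension IsCyclotomicExtension.Rat

section abs

variable {O : Type*} [CommRing O] {G : Type*} [CommGroup G] [MulSemiringAction G O] {r : ℕ}
  {χ ψ : G →* Multiplicative (ZMod r)}

theorem cc_add (r : ℕ) (σ τ : G) (a b x y : O) :
    cc r σ τ a b (x + y) = cc r σ τ a b x + cc r σ τ a b y := by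
  unfold cc
  rw [← sum_add_distrib]
  refine sum_congr rfl fun i _ => ?_
  rw [smul_add]
  ring

theorem cc_nat (r : ℕ) (σ τ : G) (a b x : O) (n : ℕ) :
    cc r σ τ a b ((n : O) * x) = (n : O) * cc r σ τ a b x := by
  unfold cc
  rw [mul_sum]
  refine sum_congr rfl fun i _ => ?_
  rw [smul_mul', smul_nat]
  ring

theorem Hfix.mul {x y : O} (hx : Hfix χ ψ x) (hy : Hfix χ ψ y) : Hfix χ ψ (x * y) := by
  intro g h1 h2
  rw [smul_mul', hx g h1 h2, hy g h1 h2]

theorem Hfix.add {x y : O} (hx : Hfix χ ψ x) (hy : Hfix χ ψ y) : Hfix χ ψ (x + y) := by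
  intro g h1 h2
  rw [smul_add, hx g h1 h2, hy g h1 h2]

theorem Hfix.nat (n : ℕ) : Hfix χ ψ (n : O) := fun g _ _ => smul_nat g n

/-- one homomorphism -/
theorem exists_x_one {k : Type*} [Field k] (Φ : O →+* k) (hr : 0 < r) (σ τ : G) (a b : O)
    (hsep : ∀ i : ℕ, 0 < i → i < r → ∃ x : O, Hfix χ ψ x ∧ Φ ((σ * τ) ^ i • x) ≠ Φ x)
    (hA : Φ (∏ k ∈ Ico 1 r, τ ^ k • b) ≠ 0) :
    ∃ x : O, Hfix χ ψ x ∧ Φ (cc r σ τ a b x) ≠ 0 := by
  classical
  by_contra hcon
  push Not at hcon
  let S : Submonoid O :=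
    { carrier := {x | Hfix χ ψ x}
      mul_mem' := fun {x y} hx hy => Hfix.mul hx hy
      one_mem' := by
        intro g _ _
        exact smul_one g }
  let f : Fin r → (S →* k) := fun i =>
    { toFun := fun x => Φ ((σ * τ) ^ (i : ℕ) • (x : O))
      map_one' := by simp
      map_mul' := fun x y => by simp [smul_mul'] }
  have hinj : Function.Injective f := by
    have key : ∀ i j : Fin r, i < j → f i ≠ f j := by
      intro i j hij hf
      obtain ⟨x0, hx0, hne⟩ := hsep ((j : ℕ) - i) (by have := Fin.lt_def.mp hij; omega)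
        (by have := j.2; omega)
      have h1 : Hfix χ ψ (((σ * τ) ^ (i : ℕ))⁻¹ • x0) := hx0.smul _
      have h2 := congrArg (fun F : S →* k => F ⟨_, h1⟩) hf
      simp only [f, MonoidHom.coe_mk, OneHom.coe_mk, smul_smul, mul_inv_cancel, one_smul] at h2
      apply hne
      rw [h2]
      congr 2
      rw [eq_mul_inv_iff_mul_eq, ← pow_add]
      congr 1
      have := Fin.lt_def.mp hij
      omega
    intro i j hf
    rcases lt_trichotomy i j with h | h | h
    · exact absurd hf (key i j h)
    · exact h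
    · exact absurd hf.symm (key j i h)
  have hli := (linearIndependent_monoidHom S k).comp f hinj
  rw [Fintype.linearIndependent_iff] at hli
  have h0 := hli (fun i => Φ ((∏ k ∈ range i, σ ^ k • a) * (∏ k ∈ Ico ((i : ℕ) + 1) r, τ ^ k • b))) ?_
    ⟨0, hr⟩
  · apply hA
    simpa using h0
  · funext x
    have h1 := hcon (x : O) x.2
    simp only [Finset.sum_apply, Pi.smul_apply, smul_eq_mul, Function.comp, Pi.zero_apply]
    rw [cc, map_sum, ← Fin.sum_univ_eq_sum_range (fun i => Φ ((∏ k ∈ range i, σ ^ k • a) *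
      (∏ k ∈ Ico (i + 1) r, τ ^ k • b) * ((σ * τ) ^ i • (x : O))))] at h1
    rw [← h1]
    refine sum_congr rfl fun i _ => ?_
    rw [map_mul Φ (_ * _) _]
    rfl

/-- finitely many primes -/
theorem exists_x_all (σ τ : G) (a b : O) (Q : Finset ℕ) (hQ : ∀ q ∈ Q, q.Prime)
    (I : ℕ → Ideal O) (hI : ∀ q ∈ Q, (I q).IsPrime) (hqI : ∀ q ∈ Q, (q : O) ∈ I q)
    (h1 : ∀ q ∈ Q, ∃ x : O, Hfix χ ψ x ∧ cc r σ τ a b x ∉ I q) :
    ∃ x : O, Hfix χ ψ x ∧ ∀ q ∈ Q, cc r σ τ a b x ∉ I q := by
  classical
  induction Q using Finset.induction_on with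
  | empty => exact ⟨0, fun g _ _ => smul_zero g, by simp⟩
  | insert q Q hq ih =>
    obtain ⟨x, hx, hx2⟩ := ih (fun q' h' => hQ q' (mem_insert_of_mem h'))
      (fun q' h' => hI q' (mem_insert_of_mem h')) (fun q' h' => hqI q' (mem_insert_of_mem h'))
      (fun q' h' => h1 q' (mem_insert_of_mem h'))
    obtain ⟨y, hy, hy2⟩ := h1 q (mem_insert_self _ _)
    have hprime := hI q (mem_insert_self _ _)
    by_cases h : cc r σ τ a b x ∈ I q
    · refine ⟨x + ((∏ t ∈ Q, t : ℕ) : O) * y, hx.add ((Hfix.nat _).mul hy), ?_⟩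
      intro q' hq'
      rw [cc_add, cc_nat]
      rcases mem_insert.mp hq' with rfl | hq''
      · intro hmem
        have h2 : ((∏ t ∈ Q, t : ℕ) : O) * cc r σ τ a b y ∈ I q' := by
          have := (I q').sub_mem hmem h
          simpa using this
        rcases hprime.mem_or_mem h2 with h3 | h3
        · -- `q'` and the product are coprime
          have hp := hQ q' (mem_insert_self _ _)
          have hcop : IsCoprime (q' : ℤ) ((∏ t ∈ Q, t : ℕ) : ℤ) := by
            rw [Nat.isCoprime_iff_coprime]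
            refine (Nat.Prime.coprime_iff_not_dvd hp).mpr fun hd => ?_
            obtain ⟨t, ht, hd'⟩ := (Prime.dvd_finsetProd_iff hp.prime _).mp hd
            have := (Nat.prime_dvd_prime_iff_eq hp (hQ t (mem_insert_of_mem ht))).mp hd'
            exact hq (this ▸ ht)
          obtain ⟨u, w, huw⟩ := hcop
          apply hprime.ne_top
          rw [Ideal.eq_top_iff_one]
          have h4 := congrArg (fun z : ℤ => (z : O)) huw
          push_cast at h4
          rw [← h4]
          refine (I q').add_mem ((I q').mul_mem_left _ (hqI q' (mem_insert_self _ _)))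
            ((I q').mul_mem_left _ ?_)
          simpa using h3
        · exact hy2 h3
      · intro hmem
        apply hx2 q' hq''
        have h2 : ((∏ t ∈ Q, t : ℕ) : O) * cc r σ τ a b y ∈ I q' := by
          apply (I q').mul_mem_right
          obtain ⟨w, hw⟩ := dvd_prod_of_mem (fun t : ℕ => t) hq''
          rw [hw]
          push_cast
          exact (I q').mul_mem_right _ (hqI q' hq')
        have := (I q').sub_mem hmem h2
        simpa using this
    · refine ⟨x, hx, ?_⟩
      intro q' hq'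
      rcases mem_insert.mp hq' with rfl | hq''
      · exact h
      · exact hx2 q' hq''

end abs

end Pool.Agent.Rcp
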